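import Pool.Agent.SplRM.Defs

set_option autoImplicit false

/-!
# Splaying: positions, the access lemma with weights, nodes on search paths
-/

namespace Pool.Agent.SplRM

open BinaryTree

/-! ## Positions along the search path -/

/-- `x` is found at depth `d`. -/
def At (x : ℕ) : ℕ → BinaryTree ℕ → Prop
  | _, .nil => False
  | 0, .node a _ _ => x = a
  | d + 1, .node a l r => (x < a ∧ At x d l) ∨ (a < x ∧ At x d r)

theorem at_depth {x : ℕ} : ∀ {d : ℕ} {t : BinaryTree ℕ}, At x d t → depth x t = d
  | 0, .nil, h => by simp [At] at h
  | d + 1, .nil, h => by simp [At] at h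
  | 0, .node a l r, h => by
      simp only [At] at h
      simp [depth, h]
  | d + 1, .node a l r, h => by
      simp only [At] at h
      rcases h with ⟨h1, h2⟩ | ⟨h1, h2⟩
      · have := at_depth h2
        have hne : x ≠ a := by omega
        simp [depth, hne, h1, this]
      · have := at_depth h2
        have hne : x ≠ a := by omega
        have hnl : ¬ x < a := by omega
        simp [depth, hne, hnl, this]

theorem step_left {x a : ℕ} {t s : BinaryTree ℕ} {d : ℕ} (hx : x < a) (h : At x (d + 2) t) :
    splayStep x (.node a t s) = .node a (splayStep x t) s := by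
  cases t with
  | nil => simp [At] at h
  | node b l r =>
    have hne : x ≠ a := by omega
    rcases h with ⟨h1, h2⟩ | ⟨h1, h2⟩
    · cases l with
      | nil => simp [At] at h2
      | node c u v =>
        have h3 : x ≠ c := by
          rcases h2 with ⟨h3, _⟩ | ⟨h3, _⟩ <;> omega
        have h4 : x ≠ b := by omega
        conv_lhs => rw [splayStep.eq_def]
        simp [hne, hx, h1, h3, h4]
    · cases r with
      | nil => simp [At] at h2
      | node c u v =>
        have h3 : x ≠ c := by
          rcases h2 with ⟨h3, _⟩ | ⟨h3, _⟩ <;> omega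
        have h4 : x ≠ b := by omega
        have h5 : ¬ x < b := by omega
        conv_lhs => rw [splayStep.eq_def]
        simp [hne, hx, h3, h4, h5]

theorem step_right {x a : ℕ} {t s : BinaryTree ℕ} {d : ℕ} (hx : a < x) (h : At x (d + 2) t) :
    splayStep x (.node a s t) = .node a s (splayStep x t) := by
  cases t with
  | nil => simp [At] at h
  | node b l r =>
    have hne : x ≠ a := by omega
    have hnl : ¬ x < a := by omega
    rcases h with ⟨h1, h2⟩ | ⟨h1, h2⟩
    · cases l with
      | nil => simp [At] at h2
      | node c u v =>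
        have h3 : x ≠ c := by
          rcases h2 with ⟨h3, _⟩ | ⟨h3, _⟩ <;> omega
        have h4 : x ≠ b := by omega
        have h5 : ¬ b < x := by omega
        conv_lhs => rw [splayStep.eq_def]
        simp [hne, hnl, h3, h4, h5]
    · cases r with
      | nil => simp [At] at h2
      | node c u v =>
        have h3 : x ≠ c := by
          rcases h2 with ⟨h3, _⟩ | ⟨h3, _⟩ <;> omega
        have h4 : x ≠ b := by omega
        conv_lhs => rw [splayStep.eq_def]
        simp [hne, hnl, h1, h3, h4]

theorem step_root {x : ℕ} {t : BinaryTree ℕ} (h : At x 0 t) : splayStep x t = t := by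
  cases t with
  | nil => simp [At] at h
  | node b l r =>
    simp only [At] at h
    rw [splayStep.eq_def]
    simp [h]

theorem iter_root {x : ℕ} {t : BinaryTree ℕ} (h : At x 0 t) (n : ℕ) :
    (splayStep x)^[n] t = t := by
  induction n with
  | zero => rfl
  | succ n ih => rw [Function.iterate_succ_apply, step_root h, ih]

/-! ## The two kinds of splaying steps as relations -/

/-- The zig step. -/
inductive Zig (x : ℕ) : BinaryTree ℕ → BinaryTree ℕ → Prop
  | left (y : ℕ) (A B C : BinaryTree ℕ) : x < y →
      Zig x (.node y (.node x A B) C) (.node x A (.node y B C))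
  | right (y : ℕ) (A B C : BinaryTree ℕ) : y < x →
      Zig x (.node y C (.node x B A)) (.node x (.node y C B) A)

/-- The zig-zig and zig-zag steps, anywhere on the search path of `x`. -/
inductive Dbl (x : ℕ) : BinaryTree ℕ → BinaryTree ℕ → Prop
  | ll (p g : ℕ) (A B C D : BinaryTree ℕ) : x < p → x < g →
      Dbl x (.node g (.node p (.node x A B) C) D) (.node x A (.node p B (.node g C D)))
  | rr (p g : ℕ) (A B C D : BinaryTree ℕ) : p < x → g < x →
      Dbl x (.node g D (.node p C (.node x B A))) (.node x (.node p (.node g D C) B) A)
  | lr (p g : ℕ) (A B C D : BinaryTree ℕ) : p < x → x < g →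
      Dbl x (.node g (.node p A (.node x B C)) D) (.node x (.node p A B) (.node g C D))
  | rl (p g : ℕ) (A B C D : BinaryTree ℕ) : x < p → g < x →
      Dbl x (.node g D (.node p (.node x C B) A)) (.node x (.node g D C) (.node p B A))
  | inL (a : ℕ) {l l' : BinaryTree ℕ} (r : BinaryTree ℕ) : x < a →
      Dbl x l l' → Dbl x (.node a l r) (.node a l' r)
  | inR (a : ℕ) (l : BinaryTree ℕ) {r r' : BinaryTree ℕ} : a < x →
      Dbl x r r' → Dbl x (.node a l r) (.node a l r')

theorem zig_of_at {x : ℕ} {t : BinaryTree ℕ} (h : At x 1 t) :
    Zig x t (splayStep x t) ∧ At x 0 (splayStep x t) := by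
  cases t with
  | nil => simp [At] at h
  | node a l r =>
    rcases h with ⟨h1, h2⟩ | ⟨h1, h2⟩
    · cases l with
      | nil => simp [At] at h2
      | node b u v =>
        simp only [At] at h2
        subst h2
        have e1 : x ≠ a := by omega
        have e : splayStep x (.node a (.node x u v) r) = .node x u (.node a v r) := by
          rw [splayStep.eq_def]; simp [e1, h1]
        rw [e]
        exact ⟨.left a u v r h1, by simp [At]⟩
    · cases r with
      | nil => simp [At] at h2
      | node b u v =>
        simp only [At] at h2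
        subst h2
        have e1 : x ≠ a := by omega
        have e2 : ¬ x < a := by omega
        have e : splayStep x (.node a l (.node x u v)) = .node x (.node a l u) v := by
          rw [splayStep.eq_def]; simp [e1, e2]
        rw [e]
        exact ⟨.right a v u l h1, by simp [At]⟩

theorem dbl_of_at {x : ℕ} : ∀ {d : ℕ} {t : BinaryTree ℕ}, At x (d + 2) t →
    Dbl x t (splayStep x t) ∧ At x d (splayStep x t)
  | d, .nil, h => by simp [At] at h
  | 0, .node a l r, h => by
      rcases h with ⟨h1, h2⟩ | ⟨h1, h2⟩
      · cases l with
        | nil => simp [At] at h2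
        | node b u v =>
          rcases h2 with ⟨h3, h4⟩ | ⟨h3, h4⟩
          · cases u with
            | nil => simp [At] at h4
            | node w p q =>
              simp only [At] at h4
              subst h4
              have e1 : x ≠ a := by omega
              have e2 : x ≠ b := by omega
              have e : splayStep x (.node a (.node b (.node x p q) v) r)
                  = .node x p (.node b q (.node a v r)) := by
                rw [splayStep.eq_def]; simp [e1, e2, h1, h3]
              rw [e]
              exact ⟨.ll b a p q v r h3 h1, by simp [At]⟩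
          · cases v with
            | nil => simp [At] at h4
            | node w p q =>
              simp only [At] at h4
              subst h4
              have e1 : x ≠ a := by omega
              have e2 : x ≠ b := by omega
              have e3 : ¬ x < b := by omega
              have e : splayStep x (.node a (.node b u (.node x p q)) r)
                  = .node x (.node b u p) (.node a q r) := by
                rw [splayStep.eq_def]; simp [e1, e2, e3, h1]
              rw [e]
              exact ⟨.lr b a u p q r h3 h1, by simp [At]⟩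
      · cases r with
        | nil => simp [At] at h2
        | node b u v =>
          rcases h2 with ⟨h3, h4⟩ | ⟨h3, h4⟩
          · cases u with
            | nil => simp [At] at h4
            | node w p q =>
              simp only [At] at h4
              subst h4
              have e1 : x ≠ a := by omega
              have e2 : x ≠ b := by omega
              have e3 : ¬ b < x := by omega
              have e4 : ¬ x < a := by omega
              have e : splayStep x (.node a l (.node b (.node x p q) v))
                  = .node x (.node a l p) (.node b q v) := by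
                rw [splayStep.eq_def]; simp [e1, e2, e3, e4]
              rw [e]
              exact ⟨.rl b a v q p l h3 h1, by simp [At]⟩
          · cases v with
            | nil => simp [At] at h4
            | node w p q =>
              simp only [At] at h4
              subst h4
              have e1 : x ≠ a := by omega
              have e2 : x ≠ b := by omega
              have e4 : ¬ x < a := by omega
              have e : splayStep x (.node a l (.node b u (.node x p q)))
                  = .node x (.node b (.node a l u) p) q := by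
                rw [splayStep.eq_def]; simp [e1, e2, h3, e4]
              rw [e]
              exact ⟨.rr b a q p u l h3 h1, by simp [At]⟩
  | d + 1, .node a l r, h => by
      rcases h with ⟨h1, h2⟩ | ⟨h1, h2⟩
      · rw [step_left h1 h2]
        obtain ⟨h3, h4⟩ := dbl_of_at h2
        exact ⟨.inL a r h1 h3, Or.inl ⟨h1, h4⟩⟩
      · rw [step_right h1 h2]
        obtain ⟨h3, h4⟩ := dbl_of_at h2
        exact ⟨.inR a l h1 h3, Or.inr ⟨h1, h4⟩⟩

/-! ## Weights and potentials -/

/-- Total weight of the keys of a tree. -/
def wt (w : ℕ → ℝ) : BinaryTree ℕ → ℝ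
  | .nil => 0
  | .node a l r => wt w l + w a + wt w r

/-- The weight of the subtree rooted at `x`. -/
noncomputable def swt (w : ℕ → ℝ) (x : ℕ) : BinaryTree ℕ → ℝ
  | .nil => 0
  | .node a l r => if x = a then wt w l + w a + wt w r else if x < a then swt w x l else swt w x r

/-- The potential: the sum over all nodes `a` of `F a (weight of the subtree at a)`. -/
def pot (w : ℕ → ℝ) (F : ℕ → ℝ → ℝ) : BinaryTree ℕ → ℝ
  | .nil => 0
  | .node a l r => pot w F l + F a (wt w l + w a + wt w r) + pot w F r

/-- `S` is closed under taking ancestors in the tree. -/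
def Closed (S : ℕ → Prop) : BinaryTree ℕ → Prop
  | .nil => True
  | .node a l r => (S a ∨ ∀ k ∈ inorder (.node a l r), ¬ S k) ∧ Closed S l ∧ Closed S r

/-- The local inequalities needed for the access lemma. -/
structure Good (V : ℝ → Prop) (S : ℕ → Prop) (w : ℕ → ℝ) (F : ℕ → ℝ → ℝ) (x : ℕ) : Prop where
  zero : V 0
  add : ∀ a b, V a → V b → V (a + b)
  wv : ∀ a, V (w a)
  zz : ∀ p g A B C D, V A → V B → V C → V D → S p → S g →
      2 + F x (A + w x + B + w p + C + w g + D) + F p (B + w p + C + w g + D) + F g (C + w g + D)
       ≤ F x (A + w x + B) + F p (A + w x + B + w p + C)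
          + F g (A + w x + B + w p + C + w g + D)
          + 3 * (Real.logb 2 (A + w x + B + w p + C + w g + D) - Real.logb 2 (A + w x + B))
  zg : ∀ p g A B C D, V A → V B → V C → V D → S p → S g →
      2 + F x (A + w p + B + w x + C + w g + D) + F p (A + w p + B) + F g (C + w g + D)
       ≤ F x (B + w x + C) + F p (A + w p + B + w x + C)
          + F g (A + w p + B + w x + C + w g + D)
          + 3 * (Real.logb 2 (A + w p + B + w x + C + w g + D) - Real.logb 2 (B + w x + C))
  z : ∀ y A B C, V A → V B → V C → S y →
      F x (A + w x + B + w y + C) + F y (B + w y + C)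
       ≤ F x (A + w x + B) + F y (A + w x + B + w y + C)
          + 3 * (Real.logb 2 (A + w x + B + w y + C) - Real.logb 2 (A + w x + B))

section Access

variable {V : ℝ → Prop} {S : ℕ → Prop} {w : ℕ → ℝ} {F : ℕ → ℝ → ℝ} {x : ℕ}

theorem Good.wt (h : Good V S w F x) : ∀ t, V (wt w t)
  | .nil => h.zero
  | .node a l r => h.add _ _ (h.add _ _ (h.wt l) (h.wv a)) (h.wt r)

theorem closed_of {t : BinaryTree ℕ} (h : Closed S t) :
    ∀ {k}, k ∈ inorder t → S k → ∀ {a l r}, t = .node a l r → S a := by
  intro k hk hS a l r e
  subst e
  rcases h.1 with h1 | h1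
  · exact h1
  · exact absurd hS (h1 k hk)

theorem dbl_inorder {t t' : BinaryTree ℕ} (h : Dbl x t t') : inorder t' = inorder t := by
  induction h with
  | ll p g A B C D h1 h2 => simp [inorder]
  | rr p g A B C D h1 h2 => simp [inorder]
  | lr p g A B C D h1 h2 => simp [inorder]
  | rl p g A B C D h1 h2 => simp [inorder]
  | inL a r h1 h2 ih => simp [inorder, ih]
  | inR a l h1 h2 ih => simp [inorder, ih]

theorem dbl_wt {t t' : BinaryTree ℕ} (h : Dbl x t t') : wt w t' = wt w t := by
  induction h with
  | ll p g A B C D h1 h2 => simp only [wt]; ring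
  | rr p g A B C D h1 h2 => simp only [wt]; ring
  | lr p g A B C D h1 h2 => simp only [wt]; ring
  | rl p g A B C D h1 h2 => simp only [wt]; ring
  | inL a r h1 h2 ih => simp only [wt, ih]
  | inR a l h1 h2 ih => simp only [wt, ih]

theorem dbl_mem {t t' : BinaryTree ℕ} (h : Dbl x t t') : x ∈ inorder t := by
  induction h with
  | ll p g A B C D h1 h2 => simp [inorder]
  | rr p g A B C D h1 h2 => simp [inorder]
  | lr p g A B C D h1 h2 => simp [inorder]
  | rl p g A B C D h1 h2 => simp [inorder]
  | inL a r h1 h2 ih => simp [inorder, ih]
  | inR a l h1 h2 ih => simp [inorder, ih]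

theorem dbl_closed {t t' : BinaryTree ℕ} (h : Dbl x t t') (hS : S x) (hc : Closed S t) :
    Closed S t' := by
  induction h with
  | ll p g A B C D h1 h2 =>
    have hg : S g := closed_of hc (k := x) (by simp [inorder]) hS rfl
    have hp : S p := closed_of hc.2.1 (k := x) (by simp [inorder]) hS rfl
    obtain ⟨-, ⟨-, ⟨-, hA, hB⟩, hC⟩, hD⟩ := hc
    exact ⟨Or.inl hS, hA, Or.inl hp, hB, Or.inl hg, hC, hD⟩
  | rr p g A B C D h1 h2 =>
    have hg : S g := closed_of hc (k := x) (by simp [inorder]) hS rfl
    have hp : S p := closed_of hc.2.2 (k := x) (by simp [inorder]) hS rfl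
    obtain ⟨-, hD, -, hC, -, hB, hA⟩ := hc
    exact ⟨Or.inl hS, ⟨Or.inl hp, ⟨Or.inl hg, hD, hC⟩, hB⟩, hA⟩
  | lr p g A B C D h1 h2 =>
    have hg : S g := closed_of hc (k := x) (by simp [inorder]) hS rfl
    have hp : S p := closed_of hc.2.1 (k := x) (by simp [inorder]) hS rfl
    obtain ⟨-, ⟨-, hA, -, hB, hC⟩, hD⟩ := hc
    exact ⟨Or.inl hS, ⟨Or.inl hp, hA, hB⟩, Or.inl hg, hC, hD⟩
  | rl p g A B C D h1 h2 =>
    have hg : S g := closed_of hc (k := x) (by simp [inorder]) hS rfl
    have hp : S p := closed_of hc.2.2 (k := x) (by simp [inorder]) hS rfl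
    obtain ⟨-, hD, -, ⟨-, hC, hB⟩, hA⟩ := hc
    exact ⟨Or.inl hS, ⟨Or.inl hg, hD, hC⟩, Or.inl hp, hB, hA⟩
  | inL a r h1 h2 ih =>
    obtain ⟨ha, hl, hr⟩ := hc
    refine ⟨?_, ih hl, hr⟩
    rcases ha with ha | ha
    · exact Or.inl ha
    · refine Or.inr ?_
      intro k hk
      apply ha k
      simpa [inorder, dbl_inorder h2] using hk
  | inR a l h1 h2 ih =>
    obtain ⟨ha, hl, hr⟩ := hc
    refine ⟨?_, hl, ih hr⟩
    rcases ha with ha | ha
    · exact Or.inl ha
    · refine Or.inr ?_
      intro k hk
      apply ha k
      simpa [inorder, dbl_inorder h2] using hk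

theorem dbl_pot {t t' : BinaryTree ℕ} (hG : Good V S w F x) (h : Dbl x t t') (hS : S x)
    (hc : Closed S t) :
    2 + pot w F t' ≤ pot w F t + 3 * (Real.logb 2 (swt w x t') - Real.logb 2 (swt w x t)) := by
  induction h with
  | ll p g A B C D h1 h2 =>
    have hg : S g := closed_of hc (k := x) (by simp [inorder]) hS rfl
    have hp : S p := closed_of hc.2.1 (k := x) (by simp [inorder]) hS rfl
    have e1 : x ≠ g := by omega
    have e2 : x ≠ p := by omega
    have := hG.zz p g _ _ _ _ (hG.wt A) (hG.wt B) (hG.wt C) (hG.wt D) hp hg
    simp only [pot, swt, wt, e1, e2, h1, h2, if_true, if_false]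
    have r1 : wt w A + w x + (wt w B + w p + (wt w C + w g + wt w D))
      = wt w A + w x + wt w B + w p + wt w C + w g + wt w D := by ring
    have r2 : wt w B + w p + (wt w C + w g + wt w D)
      = wt w B + w p + wt w C + w g + wt w D := by ring
    rw [r1, r2]
    linarith
  | rr p g A B C D h1 h2 =>
    have hg : S g := closed_of hc (k := x) (by simp [inorder]) hS rfl
    have hp : S p := closed_of hc.2.2 (k := x) (by simp [inorder]) hS rfl
    have e1 : x ≠ g := by omega
    have e2 : x ≠ p := by omega
    have e3 : ¬ x < g := by omega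
    have e4 : ¬ x < p := by omega
    have := hG.zz p g _ _ _ _ (hG.wt A) (hG.wt B) (hG.wt C) (hG.wt D) hp hg
    simp only [pot, swt, wt, e1, e2, e3, e4, if_true, if_false]
    have r1 : wt w D + w g + wt w C + w p + wt w B + w x + wt w A
      = wt w A + w x + wt w B + w p + wt w C + w g + wt w D := by ring
    have r2 : wt w D + w g + wt w C + w p + wt w B
      = wt w B + w p + wt w C + w g + wt w D := by ring
    have r3 : wt w D + w g + wt w C = wt w C + w g + wt w D := by ring
    have r4 : wt w B + w x + wt w A = wt w A + w x + wt w B := by ring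
    have r5 : wt w C + w p + (wt w A + w x + wt w B)
      = wt w A + w x + wt w B + w p + wt w C := by ring
    have r6 : wt w D + w g + (wt w A + w x + wt w B + w p + wt w C)
      = wt w A + w x + wt w B + w p + wt w C + w g + wt w D := by ring
    rw [r1, r2, r3, r4, r5, r6]
    linarith
  | lr p g A B C D h1 h2 =>
    have hg : S g := closed_of hc (k := x) (by simp [inorder]) hS rfl
    have hp : S p := closed_of hc.2.1 (k := x) (by simp [inorder]) hS rfl
    have e1 : x ≠ g := by omega
    have e2 : x ≠ p := by omega
    have e3 : ¬ x < p := by omega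
    have := hG.zg p g _ _ _ _ (hG.wt A) (hG.wt B) (hG.wt C) (hG.wt D) hp hg
    simp only [pot, swt, wt, e1, e2, h2, e3, if_true, if_false]
    have r1 : wt w A + w p + wt w B + w x + (wt w C + w g + wt w D)
      = wt w A + w p + wt w B + w x + wt w C + w g + wt w D := by ring
    have r2 : wt w A + w p + (wt w B + w x + wt w C)
      = wt w A + w p + wt w B + w x + wt w C := by ring
    rw [r1, r2]
    linarith
  | rl p g A B C D h1 h2 =>
    have hg : S g := closed_of hc (k := x) (by simp [inorder]) hS rfl
    have hp : S p := closed_of hc.2.2 (k := x) (by simp [inorder]) hS rfl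
    have e1 : x ≠ g := by omega
    have e2 : x ≠ p := by omega
    have e3 : ¬ x < g := by omega
    have := hG.zg p g _ _ _ _ (hG.wt A) (hG.wt B) (hG.wt C) (hG.wt D) hp hg
    simp only [pot, swt, wt, e1, e2, h1, e3, if_true, if_false]
    have r1 : wt w D + w g + wt w C + w x + (wt w B + w p + wt w A)
      = wt w A + w p + wt w B + w x + wt w C + w g + wt w D := by ring
    have r2 : wt w D + w g + wt w C = wt w C + w g + wt w D := by ring
    have r3 : wt w B + w p + wt w A = wt w A + w p + wt w B := by ring
    have r4 : wt w C + w x + wt w B = wt w B + w x + wt w C := by ring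
    have r5 : wt w B + w x + wt w C + w p + wt w A
      = wt w A + w p + wt w B + w x + wt w C := by ring
    have r6 : wt w D + w g + (wt w A + w p + wt w B + w x + wt w C)
      = wt w A + w p + wt w B + w x + wt w C + w g + wt w D := by ring
    rw [r1, r2, r3, r4, r5, r6]
    linarith
  | inL a r h1 h2 ih =>
    have e1 : x ≠ a := by omega
    have := ih hc.2.1
    simp only [pot, swt, e1, h1, if_true, if_false, dbl_wt h2]
    linarith
  | inR a l h1 h2 ih =>
    have e1 : x ≠ a := by omega
    have e2 : ¬ x < a := by omega
    have := ih hc.2.2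
    simp only [pot, swt, e1, e2, if_false, dbl_wt h2]
    linarith

theorem zig_inorder {t t' : BinaryTree ℕ} (h : Zig x t t') : inorder t' = inorder t := by
  cases h with
  | left y A B C h1 => simp [inorder]
  | right y A B C h1 => simp [inorder]

theorem zig_wt {t t' : BinaryTree ℕ} (h : Zig x t t') : wt w t' = wt w t := by
  cases h with
  | left y A B C h1 => simp only [wt]; ring
  | right y A B C h1 => simp only [wt]; ring

theorem zig_closed {t t' : BinaryTree ℕ} (h : Zig x t t') (hS : S x) (hc : Closed S t) :
    Closed S t' := by
  cases h with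
  | left y A B C h1 =>
    have hy : S y := closed_of hc (k := x) (by simp [inorder]) hS rfl
    obtain ⟨-, ⟨-, hA, hB⟩, hC⟩ := hc
    exact ⟨Or.inl hS, hA, Or.inl hy, hB, hC⟩
  | right y A B C h1 =>
    have hy : S y := closed_of hc (k := x) (by simp [inorder]) hS rfl
    obtain ⟨-, hC, -, hB, hA⟩ := hc
    exact ⟨Or.inl hS, ⟨Or.inl hy, hC, hB⟩, hA⟩

theorem zig_pot {t t' : BinaryTree ℕ} (hG : Good V S w F x) (h : Zig x t t') (hS : S x)
    (hc : Closed S t) :
    pot w F t' ≤ pot w F t + 3 * (Real.logb 2 (wt w t) - Real.logb 2 (swt w x t)) := by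
  cases h with
  | left y A B C h1 =>
    have hy : S y := closed_of hc (k := x) (by simp [inorder]) hS rfl
    have e1 : x ≠ y := by omega
    have := hG.z y _ _ _ (hG.wt A) (hG.wt B) (hG.wt C) hy
    simp only [pot, swt, wt, e1, h1, if_true, if_false]
    have r1 : wt w A + w x + (wt w B + w y + wt w C)
      = wt w A + w x + wt w B + w y + wt w C := by ring
    rw [r1]
    linarith
  | right y A B C h1 =>
    have hy : S y := closed_of hc (k := x) (by simp [inorder]) hS rfl
    have e1 : x ≠ y := by omega
    have e3 : ¬ x < y := by omega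
    have := hG.z y _ _ _ (hG.wt A) (hG.wt B) (hG.wt C) hy
    simp only [pot, swt, wt, e1, e3, if_true, if_false]
    have r1 : wt w C + w y + wt w B + w x + wt w A
      = wt w A + w x + wt w B + w y + wt w C := by ring
    have r2 : wt w C + w y + wt w B = wt w B + w y + wt w C := by ring
    have r3 : wt w B + w x + wt w A = wt w A + w x + wt w B := by ring
    have r4 : wt w C + w y + (wt w A + w x + wt w B)
      = wt w A + w x + wt w B + w y + wt w C := by ring
    rw [r1, r2, r3, r4]
    linarith

theorem swt_root {t : BinaryTree ℕ} (h : At x 0 t) : swt w x t = wt w t := by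
  cases t with
  | nil => simp [At] at h
  | node a l r =>
    simp only [At] at h
    simp [swt, wt, h]

/-- The access lemma. -/
theorem access (hG : Good V S w F x) (hS : S x) : ∀ {d : ℕ} {t : BinaryTree ℕ}, At x d t →
    Closed S t → ∀ n, d ≤ 2 * n →
    Closed S ((splayStep x)^[n] t) ∧ inorder ((splayStep x)^[n] t) = inorder t ∧
      (d : ℝ) + pot w F ((splayStep x)^[n] t)
        ≤ pot w F t + 1 + 3 * (Real.logb 2 (wt w t) - Real.logb 2 (swt w x t))
  | 0, t, h, hc, n, _ => by
      rw [iter_root h, swt_root h]
      refine ⟨hc, rfl, ?_⟩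
      push_cast
      linarith
  | 1, t, h, hc, n, hn => by
      obtain ⟨m, rfl⟩ : ∃ m, n = m + 1 := ⟨n - 1, by omega⟩
      obtain ⟨hz, h0⟩ := zig_of_at h
      rw [Function.iterate_succ_apply, iter_root h0]
      refine ⟨zig_closed hz hS hc, zig_inorder hz, ?_⟩
      have := zig_pot hG hz hS hc
      push_cast
      linarith
  | d + 2, t, h, hc, n, hn => by
      obtain ⟨m, rfl⟩ : ∃ m, n = m + 1 := ⟨n - 1, by omega⟩
      obtain ⟨hz, h0⟩ := dbl_of_at h
      rw [Function.iterate_succ_apply]
      obtain ⟨i1, i2, i3⟩ := access hG hS h0 (dbl_closed hz hS hc) m (by omega)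
      refine ⟨i1, i2.trans (dbl_inorder hz), ?_⟩
      have := dbl_pot hG hz hS hc
      rw [dbl_wt hz] at i3
      push_cast
      linarith

theorem at_of_mem : ∀ {t : BinaryTree ℕ}, IsBST t → x ∈ inorder t → At x (depth x t) t
  | .nil, _, h => by simp [inorder] at h
  | .node a l r, hb, h => by
      simp only [IsBST, inorder, List.pairwise_append, List.pairwise_cons, List.mem_cons] at hb
      simp only [inorder, List.mem_append, List.mem_cons] at h
      obtain ⟨hl, ⟨ha, hr⟩, hlr⟩ := hb
      rcases h with h | h | h
      · have hlt : x < a := hlr x h a (Or.inl rfl)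
        have hne : x ≠ a := by omega
        simp only [depth, hne, hlt, if_true, if_false]
        exact Or.inl ⟨hlt, at_of_mem hl h⟩
      · simp [depth, h, At]
      · have hlt : a < x := ha x h
        have hne : x ≠ a := by omega
        have hnl : ¬ x < a := by omega
        simp only [depth, hne, hnl, if_false]
        exact Or.inr ⟨hlt, at_of_mem hr h⟩

theorem wt_nonneg (hw : ∀ a, 0 ≤ w a) : ∀ t, 0 ≤ wt w t
  | .nil => le_refl _
  | .node a l r => add_nonneg (add_nonneg (wt_nonneg hw l) (hw a)) (wt_nonneg hw r)

theorem le_swt (hw : ∀ a, 0 ≤ w a) : ∀ {d : ℕ} {t : BinaryTree ℕ}, At x d t → w x ≤ swt w x t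
  | 0, .nil, h => by simp [At] at h
  | d + 1, .nil, h => by simp [At] at h
  | 0, .node a l r, h => by
      simp only [At] at h
      subst h
      simp only [swt, if_true]
      have := wt_nonneg hw l
      have := wt_nonneg hw r
      linarith
  | d + 1, .node a l r, h => by
      rcases h with ⟨h1, h2⟩ | ⟨h1, h2⟩
      · have hne : x ≠ a := by omega
        simp only [swt, hne, h1, if_true, if_false]
        exact le_swt hw h2
      · have hne : x ≠ a := by omega
        have hnl : ¬ x < a := by omega
        simp only [swt, hne, hnl, if_false]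
        exact le_swt hw h2

/-- The amortized cost of splaying one key. -/
theorem splay_amortized (hG : Good V S w F x) (hS : S x) (hw : ∀ a, 0 ≤ w a) (hx : 0 < w x)
    {t : BinaryTree ℕ} (hb : IsBST t) (hm : x ∈ inorder t) (hc : Closed S t) :
    Closed S (splay x t) ∧ inorder (splay x t) = inorder t ∧
      (depth x t : ℝ) + pot w F (splay x t)
        ≤ pot w F t + 1 + 3 * (Real.logb 2 (wt w t) - Real.logb 2 (w x)) := by
  have hA := at_of_mem hb hm
  obtain ⟨h1, h2, h3⟩ := access hG hS hA hc (depth x t) (by omega)
  refine ⟨h1, h2, h3.trans ?_⟩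
  have := Real.logb_le_logb_of_le (b := 2) (by norm_num) hx (le_swt hw hA)
  linarith

end Access

/-! ## The count of the nodes on the search paths of the requested keys -/

/-- The number of nodes which lie on the search path of some key of `X`. -/
def steiner (X : List ℕ) : BinaryTree ℕ → ℕ
  | .nil => 0
  | .node a l r =>
    if X = [] then 0
    else 1 + steiner (X.filter (· < a)) l + steiner (X.filter (a < ·)) r

/-- The key `v` lies on the search path of some key of `X`. -/
def OnPath (X : List ℕ) (v : ℕ) : BinaryTree ℕ → Prop
  | .nil => False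
  | .node a l r =>
    X ≠ [] ∧ (v = a ∨ (v < a ∧ OnPath (X.filter (· < a)) v l) ∨
      (a < v ∧ OnPath (X.filter (a < ·)) v r))

theorem steiner_nil_list : ∀ t, steiner [] t = 0
  | .nil => rfl
  | .node a l r => by simp [steiner]

theorem onPath_self {x : ℕ} : ∀ {X : List ℕ} {t : BinaryTree ℕ}, x ∈ X → IsBST t →
    x ∈ inorder t → OnPath X x t
  | X, .nil, _, _, h => by simp [inorder] at h
  | X, .node a l r, hX, hb, h => by
      simp only [IsBST, inorder, List.pairwise_append, List.pairwise_cons, List.mem_cons] at hb
      simp only [inorder, List.mem_append, List.mem_cons] at h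
      obtain ⟨hl, ⟨ha, hr⟩, hlr⟩ := hb
      refine ⟨List.ne_nil_of_mem hX, ?_⟩
      rcases h with h | h | h
      · have hlt : x < a := hlr x h a (Or.inl rfl)
        exact Or.inr (Or.inl ⟨hlt, onPath_self (by simp [hX, hlt]) hl h⟩)
      · exact Or.inl h
      · have hlt : a < x := ha x h
        exact Or.inr (Or.inr ⟨hlt, onPath_self (by simp [hX, hlt]) hr h⟩)

theorem onPath_nil_list {v : ℕ} : ∀ t, ¬ OnPath [] v t
  | .nil => by simp [OnPath]
  | .node a l r => by simp [OnPath]

theorem closed_onPath {S : ℕ → Prop} : ∀ {X : List ℕ} {t : BinaryTree ℕ}, IsBST t →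
    (∀ v ∈ inorder t, S v ↔ OnPath X v t) → Closed S t
  | X, .nil, _, _ => trivial
  | X, .node a l r, hb, hS => by
      simp only [IsBST, inorder, List.pairwise_append, List.pairwise_cons, List.mem_cons] at hb
      obtain ⟨hl, ⟨ha, hr⟩, hlr⟩ := hb
      have hal : ∀ v ∈ inorder l, v < a := fun v hv => hlr v hv a (Or.inl rfl)
      by_cases hX : X = []
      · subst hX
        have h0 : ∀ v ∈ inorder (.node a l r), ¬ S v := fun v hv => by
          rw [hS v hv]; exact onPath_nil_list _
        refine ⟨Or.inr h0, ?_, ?_⟩
        · apply closed_onPath (X := []) hl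
          intro v hv
          exact iff_of_false (h0 v (by simp [inorder, hv])) (onPath_nil_list _)
        · apply closed_onPath (X := []) hr
          intro v hv
          exact iff_of_false (h0 v (by simp [inorder, hv])) (onPath_nil_list _)
      · refine ⟨Or.inl ((hS a (by simp [inorder])).2 ⟨hX, Or.inl rfl⟩), ?_, ?_⟩
        · apply closed_onPath (X := X.filter (· < a)) hl
          intro v hv
          rw [hS v (by simp [inorder, hv])]
          have h1 := hal v hv
          have h2 : v ≠ a := by omega
          have h3 : ¬ a < v := by omega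
          simp [OnPath, hX, h1, h2, h3]
        · apply closed_onPath (X := X.filter (a < ·)) hr
          intro v hv
          rw [hS v (by simp [inorder, hv])]
          have h1 := ha v hv
          have h2 : v ≠ a := by omega
          have h3 : ¬ v < a := by omega
          simp [OnPath, hX, h1, h2, h3]

theorem rot_inorder {a b : ℕ} {t t' : BinaryTree ℕ} (h : Rot a b t t') :
    inorder t' = inorder t := by
  induction h with
  | atLeftChild A B C => simp [inorder]
  | atRightChild A B C => simp [inorder]
  | inLeft c r h ih => simp [inorder, ih]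
  | inRight c l h ih => simp [inorder, ih]

theorem filter_lt_lt {a b : ℕ} (h : b < a) (X : List ℕ) :
    (X.filter (· < a)).filter (· < b) = X.filter (· < b) := by
  rw [List.filter_filter]
  apply List.filter_congr
  intro x _
  by_cases hx : x < b
  · have : x < a := by omega
    simp [hx, this]
  · simp [hx]

theorem filter_gt_gt {a b : ℕ} (h : b < a) (X : List ℕ) :
    (X.filter (b < ·)).filter (a < ·) = X.filter (a < ·) := by
  rw [List.filter_filter]
  apply List.filter_congr
  intro x _
  by_cases hx : a < x
  · have : b < x := by omega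
    simp [hx, this]
  · simp [hx]

theorem filter_comm' {a b : ℕ} (X : List ℕ) :
    (X.filter (b < ·)).filter (· < a) = (X.filter (· < a)).filter (b < ·) := by
  rw [List.filter_filter, List.filter_filter]
  apply List.filter_congr
  intro x _
  rw [Bool.and_comm]

theorem steiner_rot {a b : ℕ} {t t' : BinaryTree ℕ} (h : Rot a b t t') :
    ∀ X : List ℕ, IsBST t → steiner X t ≤ steiner X t' + 1 := by
  induction h with
  | atLeftChild A B C =>
    intro X hb
    have hba : b < a := by
      simp only [IsBST, inorder, List.pairwise_append] at hb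
      exact hb.2.2 b (by simp) a (by simp)
    by_cases hX : X = []
    · subst hX; simp [steiner]
    · simp only [steiner, hX, if_false]
      rw [filter_lt_lt hba, filter_gt_gt hba, filter_comm']
      split_ifs with h1 h2 h2
      · have h3 : X.filter (a < ·) = [] := by
          rw [← filter_gt_gt hba, h2]; rfl
        rw [h3, steiner_nil_list]
        omega
      · omega
      · have h3 : X.filter (a < ·) = [] := by
          rw [← filter_gt_gt hba, h2]; rfl
        have h4 : (X.filter (· < a)).filter (b < ·) = [] := by
          rw [← filter_comm', h2]; rfl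
        rw [h3, h4, steiner_nil_list, steiner_nil_list]
        omega
      · omega
  | atRightChild A B C =>
    intro X hb
    have hba : a < b := by
      simp only [IsBST, inorder, List.pairwise_append, List.pairwise_cons] at hb
      exact hb.2.1.1 b (by simp)
    by_cases hX : X = []
    · subst hX; simp [steiner]
    · simp only [steiner, hX, if_false]
      rw [filter_gt_gt hba, filter_lt_lt hba, filter_comm']
      split_ifs with h1 h2 h2
      · have h3 : X.filter (· < a) = [] := by
          rw [← filter_lt_lt hba, h2]; rfl
        rw [h3, steiner_nil_list]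
        omega
      · omega
      · have h3 : X.filter (· < a) = [] := by
          rw [← filter_lt_lt hba, h2]; rfl
        have h4 : (X.filter (· < b)).filter (a < ·) = [] := by
          rw [h2]; rfl
        rw [h3, h4, steiner_nil_list, steiner_nil_list]
        omega
      · omega
  | inLeft c r h ih =>
    intro X hb
    simp only [IsBST, inorder, List.pairwise_append] at hb
    have := ih (X.filter (· < c)) hb.1
    simp only [steiner]
    split_ifs <;> omega
  | inRight c l h ih =>
    intro X hb
    simp only [IsBST, inorder, List.pairwise_append, List.pairwise_cons] at hb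
    have := ih (X.filter (c < ·)) hb.2.1.2
    simp only [steiner]
    split_ifs <;> omega

/-! ## Logarithms -/

theorem lg_mono {a b : ℝ} (ha : 0 < a) (h : a ≤ b) : Real.logb 2 a ≤ Real.logb 2 b :=
  Real.logb_le_logb_of_le (by norm_num) ha h

theorem lg_add {a b c : ℝ} (ha : 0 < a) (hb : 0 < b) (h : a + b ≤ c) :
    Real.logb 2 a + Real.logb 2 b + 2 ≤ 2 * Real.logb 2 c := by
  have hc : 0 < c := by linarith
  have h1 : a * b ≤ (c / 2) ^ 2 := by nlinarith [sq_nonneg (a - b)]
  have h2 := lg_mono (mul_pos ha hb) h1
  rw [Real.logb_mul ha.ne' hb.ne', Real.logb_pow, Real.logb_div hc.ne' (by norm_num),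
    Real.logb_self_eq_one (by norm_num)] at h2
  push_cast at h2
  linarith

/-! ## The potential for clustered executions -/

/-! ## The weights attached to a tree and a labelling -/

/-- Number of label changes on the search path of `x`, when the node above the root is given
the label `q`. -/
def lev (κ : ℕ → ℕ) (x : ℕ) : ℕ → BinaryTree ℕ → ℕ
  | _, .nil => 0
  | q, .node a l r =>
    (if κ a = q then 0 else 1) +
      (if x = a then 0 else if x < a then lev κ x (κ a) l else lev κ x (κ a) r)

section Cluster

variable {κ : ℕ → ℕ} {s : ℕ} {β : ℝ}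

end Cluster

section Rotations

variable {κ : ℕ → ℕ}

theorem lev_le (x : ℕ) : ∀ (t : BinaryTree ℕ) (q : ℕ), lev κ x q t ≤ 1 + depth x t
  | .nil, q => by simp [lev]
  | .node a l r, q => by
      have h1 := lev_le x l (κ a)
      have h2 := lev_le x r (κ a)
      simp only [lev, depth]
      split_ifs <;> omega

theorem lev_change (x : ℕ) : ∀ (t : BinaryTree ℕ) (q q' : ℕ), lev κ x q t ≤ lev κ x q' t + 1
  | .nil, q, q' => by simp [lev]
  | .node a l r, q, q' => by
      simp only [lev]
      split_ifs <;> omega

theorem lev_rot_inside {a b : ℕ} {t t' : BinaryTree ℕ} (h : Rot a b t t') (hκ : κ a = κ b) :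
    IsBST t → ∀ v q, lev κ v q t' = lev κ v q t := by
  induction h with
  | atLeftChild A B C =>
    intro hb v q
    have hba : b < a := by
      simp only [IsBST, inorder, List.pairwise_append] at hb
      exact hb.2.2 b (by simp) a (by simp)
    simp only [lev, hκ, if_true]
    split_ifs <;> omega
  | atRightChild A B C =>
    intro hb v q
    have hba : a < b := by
      simp only [IsBST, inorder, List.pairwise_append, List.pairwise_cons] at hb
      exact hb.2.1.1 b (by simp)
    simp only [lev, hκ, if_true]
    split_ifs <;> omega
  | inLeft c r h ih =>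
    intro hb v q
    simp only [IsBST, inorder, List.pairwise_append] at hb
    simp only [lev, ih hb.1]
  | inRight c l h ih =>
    intro hb v q
    simp only [IsBST, inorder, List.pairwise_append, List.pairwise_cons] at hb
    simp only [lev, ih hb.2.1.2]

theorem lev_rot {a b : ℕ} {t t' : BinaryTree ℕ} (h : Rot a b t t') :
    IsBST t → ∀ q, ∃ m ≤ 2, ∀ v, lev κ v q t ≤ lev κ v q t' + m ∧
      lev κ v q t' + m ≤ lev κ v q t + 2 := by
  by_cases hκ : κ a = κ b
  · intro hb q
    refine ⟨0, by omega, fun v => ?_⟩
    rw [lev_rot_inside h hκ hb]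
    omega
  induction h with
  | atLeftChild A B C =>
    intro hb q
    have hba : b < a := by
      simp only [IsBST, inorder, List.pairwise_append] at hb
      exact hb.2.2 b (by simp) a (by simp)
    refine ⟨if κ a = q then 0 else if κ b = q then 2 else 1, by split_ifs <;> omega, ?_⟩
    intro v
    have h1 := lev_change (κ := κ) v B (κ a) (κ b)
    have h2 := lev_change (κ := κ) v B (κ b) (κ a)
    simp only [lev]
    split_ifs <;> omega
  | atRightChild A B C =>
    intro hb q
    have hba : a < b := by
      simp only [IsBST, inorder, List.pairwise_append, List.pairwise_cons] at hb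
      exact hb.2.1.1 b (by simp)
    refine ⟨if κ a = q then 0 else if κ b = q then 2 else 1, by split_ifs <;> omega, ?_⟩
    intro v
    have h1 := lev_change (κ := κ) v B (κ a) (κ b)
    have h2 := lev_change (κ := κ) v B (κ b) (κ a)
    simp only [lev]
    split_ifs <;> omega
  | inLeft c r h ih =>
    intro hb q
    simp only [IsBST, inorder, List.pairwise_append] at hb
    obtain ⟨m, hm, h1⟩ := ih hb.1 (κ c)
    refine ⟨m, hm, ?_⟩
    intro v
    have := h1 v
    simp only [lev]
    split_ifs <;> omega
  | inRight c l h ih =>
    intro hb q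
    simp only [IsBST, inorder, List.pairwise_append, List.pairwise_cons] at hb
    obtain ⟨m, hm, h1⟩ := ih hb.2.1.2 (κ c)
    refine ⟨m, hm, ?_⟩
    intro v
    have := h1 v
    simp only [lev]
    split_ifs <;> omega

/-- Number of the rotations in `P` at an edge whose ends have different labels. -/
def across (κ : ℕ → ℕ) (P : List (ℕ × ℕ)) : ℕ := (P.filter (fun p => κ p.1 ≠ κ p.2)).length

theorem across_append (P Q : List (ℕ × ℕ)) :
    across κ (P ++ Q) = across κ P + across κ Q := by
  simp [across]

end Rotations

theorem wt_eq_sum (w : ℕ → ℝ) : ∀ t, wt w t = ((inorder t).map w).sum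
  | .nil => by simp [wt, inorder]
  | .node a l r => by
      simp only [wt, inorder, List.map_append, List.map_cons, List.sum_append, List.sum_cons]
      rw [wt_eq_sum w l, wt_eq_sum w r]
      ring

/-! ## Few requested keys -/

/-- Weight one for the requested keys, zero for the others. -/
noncomputable def wX (X : List ℕ) (v : ℕ) : ℝ := if v ∈ X then 1 else 0

/-- The local potential of a node whose subtree has `s` requested keys. -/
noncomputable def FX (_ : ℕ) (s : ℝ) : ℝ := if s = 0 then 0 else Real.logb 2 s + 2

theorem zero_or_one_le {r : ℝ} (h : ∃ n : ℕ, r = n) : r = 0 ∨ 1 ≤ r := by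
  obtain ⟨n, rfl⟩ := h
  rcases Nat.eq_zero_or_pos n with h | h
  · left; rw [h]; norm_num
  · right; exact_mod_cast h

theorem wX_nat (X : List ℕ) (v : ℕ) : ∃ n : ℕ, wX X v = n := by
  unfold wX
  split_ifs
  · exact ⟨1, by norm_num⟩
  · exact ⟨0, by norm_num⟩

theorem nat_nonneg {r : ℝ} (h : ∃ n : ℕ, r = n) : 0 ≤ r := by
  obtain ⟨n, rfl⟩ := h
  exact Nat.cast_nonneg n

theorem nat_add {r s : ℝ} (h : ∃ n : ℕ, r = n) (h' : ∃ n : ℕ, s = n) : ∃ n : ℕ, r + s = n := by
  obtain ⟨n, rfl⟩ := h
  obtain ⟨m, rfl⟩ := h'
  exact ⟨n + m, by push_cast; ring⟩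

theorem lg_nonneg {r : ℝ} (h : 1 ≤ r) : 0 ≤ Real.logb 2 r := Real.logb_nonneg (by norm_num) h

theorem FX_of_pos {a : ℕ} {s : ℝ} (h : 0 < s) : FX a s = Real.logb 2 s + 2 := by
  simp [FX, h.ne']

theorem FX_of_zero {a : ℕ} {s : ℝ} (h : s = 0) : FX a s = 0 := by
  simp [FX, h]

theorem good_FX {X : List ℕ} {x : ℕ} (hx : x ∈ X) :
    Good (fun r => ∃ n : ℕ, r = n) (fun _ => True) (wX X) FX x where
  zero := ⟨0, by norm_num⟩
  add := fun a b ha hb => nat_add ha hb
  wv := wX_nat X
  zz := by
    intro p g A B C D hA hB hC hD _ _
    have hwx : wX X x = 1 := by simp [wX, hx]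
    have h1 := wX_nat X p
    have h2 := wX_nat X g
    rw [hwx]
    have a0 := nat_nonneg hA
    have b0 := nat_nonneg hB
    have c0 := nat_nonneg hC
    have d0 := nat_nonneg hD
    have p0 := nat_nonneg h1
    have g0 := nat_nonneg h2
    have e1 : A + 1 + B + wX X p + C + wX X g + D ≠ 0 := by
      intro h; linarith
    have e2 : A + 1 + B ≠ 0 := by intro h; linarith
    have e3 : A + 1 + B + wX X p + C ≠ 0 := by intro h; linarith
    have k2 := lg_mono (a := A + 1 + B) (b := A + 1 + B + wX X p + C)
      (by linarith) (by linarith)
    have k3 := lg_mono (a := A + 1 + B) (b := A + 1 + B + wX X p + C + wX X g + D)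
      (by linarith) (by linarith)
    have n1 := lg_nonneg (r := A + 1 + B) (by linarith)
    simp only [FX, e1, e2, e3, if_false]
    rcases zero_or_one_le (nat_add (nat_add hC h2) hD) with hG | hG
    · rcases zero_or_one_le (nat_add (nat_add (nat_add (nat_add hB h1) hC) h2) hD) with hP | hP
      · simp only [hG, hP, if_true]
        linarith
      · have e4 : B + wX X p + C + wX X g + D ≠ 0 := by intro h; linarith
        simp only [hG, e4, if_true, if_false]
        have k1 := lg_mono (a := B + wX X p + C + wX X g + D)
          (b := A + 1 + B + wX X p + C + wX X g + D) (by linarith) (by linarith)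
        linarith
    · have e4 : B + wX X p + C + wX X g + D ≠ 0 := by intro h; linarith
      have e5 : C + wX X g + D ≠ 0 := by intro h; linarith
      simp only [e4, e5, if_false]
      have k1 := lg_mono (a := B + wX X p + C + wX X g + D)
        (b := A + 1 + B + wX X p + C + wX X g + D) (by linarith) (by linarith)
      have k4 := lg_add (a := A + 1 + B) (b := C + wX X g + D)
        (c := A + 1 + B + wX X p + C + wX X g + D) (by linarith) (by linarith) (by linarith)
      linarith
  zg := by
    intro p g A B C D hA hB hC hD _ _
    have hwx : wX X x = 1 := by simp [wX, hx]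
    have h1 := wX_nat X p
    have h2 := wX_nat X g
    rw [hwx]
    have a0 := nat_nonneg hA
    have b0 := nat_nonneg hB
    have c0 := nat_nonneg hC
    have d0 := nat_nonneg hD
    have p0 := nat_nonneg h1
    have g0 := nat_nonneg h2
    have k2 := lg_mono (a := B + 1 + C) (b := A + wX X p + B + 1 + C)
      (by linarith) (by linarith)
    have k3 := lg_mono (a := B + 1 + C) (b := A + wX X p + B + 1 + C + wX X g + D)
      (by linarith) (by linarith)
    have n1 := lg_nonneg (r := B + 1 + C) (by linarith)
    rw [FX_of_pos (by linarith : 0 < A + wX X p + B + 1 + C + wX X g + D),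
      FX_of_pos (by linarith : 0 < B + 1 + C), FX_of_pos (by linarith : 0 < A + wX X p + B + 1 + C),
      FX_of_pos (by linarith : 0 < A + wX X p + B + 1 + C + wX X g + D)]
    rcases zero_or_one_le (nat_add (nat_add hC h2) hD) with hG | hG
    · rw [FX_of_zero hG]
      rcases zero_or_one_le (nat_add (nat_add hA h1) hB) with hP | hP
      · rw [FX_of_zero hP]
        linarith
      · rw [FX_of_pos (by linarith : 0 < A + wX X p + B)]
        have k1 := lg_mono (a := A + wX X p + B)
          (b := A + wX X p + B + 1 + C + wX X g + D) (by linarith) (by linarith)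
        linarith
    · rw [FX_of_pos (by linarith : 0 < C + wX X g + D)]
      rcases zero_or_one_le (nat_add (nat_add hA h1) hB) with hP | hP
      · rw [FX_of_zero hP]
        have k1 := lg_mono (a := C + wX X g + D)
          (b := A + wX X p + B + 1 + C + wX X g + D) (by linarith) (by linarith)
        linarith
      · rw [FX_of_pos (by linarith : 0 < A + wX X p + B)]
        have k4 := lg_add (a := A + wX X p + B) (b := C + wX X g + D)
          (c := A + wX X p + B + 1 + C + wX X g + D) (by linarith) (by linarith) (by linarith)
        linarith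
  z := by
    intro y A B C hA hB hC _
    have hwx : wX X x = 1 := by simp [wX, hx]
    have h1 := wX_nat X y
    rw [hwx]
    have a0 := nat_nonneg hA
    have b0 := nat_nonneg hB
    have c0 := nat_nonneg hC
    have p0 := nat_nonneg h1
    have e1 : A + 1 + B + wX X y + C ≠ 0 := by intro h; linarith
    have e2 : A + 1 + B ≠ 0 := by intro h; linarith
    have k3 := lg_mono (a := A + 1 + B) (b := A + 1 + B + wX X y + C)
      (by linarith) (by linarith)
    have n1 := lg_nonneg (r := A + 1 + B) (by linarith)
    simp only [FX, e1, e2, if_false]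
    rcases zero_or_one_le (nat_add (nat_add hB h1) hC) with hG | hG
    · simp only [hG, if_true]
      linarith
    · have e5 : B + wX X y + C ≠ 0 := by intro h; linarith
      simp only [e5, if_false]
      have k1 := lg_mono (a := B + wX X y + C)
        (b := A + 1 + B + wX X y + C) (by linarith) (by linarith)
      linarith

theorem wX_nonneg (X : List ℕ) (v : ℕ) : 0 ≤ wX X v := nat_nonneg (wX_nat X v)

theorem wt_nat (X : List ℕ) : ∀ t, ∃ n : ℕ, wt (wX X) t = n
  | .nil => ⟨0, by simp [wt]⟩
  | .node a l r => nat_add (nat_add (wt_nat X l) (wX_nat X a)) (wt_nat X r)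

theorem pot_FX_nonneg (X : List ℕ) : ∀ t, 0 ≤ pot (wX X) FX t
  | .nil => le_refl _
  | .node a l r => by
      have h1 := pot_FX_nonneg X l
      have h2 := pot_FX_nonneg X r
      have h3 : 0 ≤ FX a (wt (wX X) l + wX X a + wt (wX X) r) := by
        unfold FX
        rcases zero_or_one_le (wt_nat X (.node a l r)) with h | h
        · simp only [wt] at h
          simp [h]
        · simp only [wt] at h
          have := lg_nonneg h
          split_ifs <;> linarith
      simp only [pot]
      linarith

theorem potX_le {X : List ℕ} {k : ℝ} (hk : 1 ≤ k) : ∀ (t : BinaryTree ℕ) (Y : List ℕ),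
    IsBST t → (∀ v ∈ inorder t, v ∈ X ↔ v ∈ Y) → wt (wX X) t ≤ k →
    pot (wX X) FX t ≤ steiner Y t * (Real.logb 2 k + 2)
  | .nil, Y, _, _, _ => by simp [pot, steiner]
  | .node a l r, Y, hb, hY, hw => by
      simp only [IsBST, inorder, List.pairwise_append, List.pairwise_cons, List.mem_cons] at hb
      obtain ⟨hl, ⟨ha, hr⟩, hlr⟩ := hb
      have hal : ∀ v ∈ inorder l, v < a := fun v hv => hlr v hv a (Or.inl rfl)
      have w1 := wt_nonneg (wX_nonneg X) l
      have w2 := wt_nonneg (wX_nonneg X) r
      have w3 := wX_nonneg X a
      simp only [wt] at hw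
      by_cases hY0 : Y = []
      · subst hY0
        have i1 := potX_le hk l [] hl (fun v hv => hY v (by simp [inorder, hv])) (by linarith)
        have i2 := potX_le hk r [] hr (fun v hv => hY v (by simp [inorder, hv])) (by linarith)
        have h0 : ∀ t : BinaryTree ℕ, (∀ v ∈ inorder t, v ∈ X ↔ v ∈ ([] : List ℕ)) →
            wt (wX X) t = 0 := by
          intro t ht
          rw [wt_eq_sum]
          apply List.sum_eq_zero
          intro r hr
          obtain ⟨v, hv, rfl⟩ := List.mem_map.1 hr
          have h3 : v ∉ X := by rw [ht v hv]; simp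
          simp [wX, h3]
        have h1 := h0 (.node a l r) hY
        simp only [wt] at h1
        rw [steiner_nil_list] at i1 i2 ⊢
        simp only [pot, h1, FX, if_true]
        push_cast at i1 i2 ⊢
        linarith
      · have i1 := potX_le hk l (Y.filter (· < a)) hl (fun v hv => by
          rw [hY v (by simp [inorder, hv])]
          simp [hal v hv]) (by linarith)
        have i2 := potX_le hk r (Y.filter (a < ·)) hr (fun v hv => by
          rw [hY v (by simp [inorder, hv])]
          simp [ha v hv]) (by linarith)
        have hlk := lg_nonneg hk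
        have h1 : FX a (wt (wX X) l + wX X a + wt (wX X) r) ≤ Real.logb 2 k + 2 := by
          unfold FX
          split_ifs with h
          · linarith
          · have := lg_mono (a := wt (wX X) l + wX X a + wt (wX X) r) (b := k)
              (lt_of_le_of_ne (by linarith) (Ne.symm h)) hw
            linarith
        simp only [pot, steiner, hY0, if_false]
        push_cast
        linarith

theorem splayCost_le_X {X : List ℕ} {k : ℝ} (hk : 1 ≤ k) : ∀ (Y : List ℕ) (Z : BinaryTree ℕ),
    IsBST Z → (∀ x ∈ Y, x ∈ X ∧ x ∈ inorder Z) → wt (wX X) Z ≤ k →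
    (splayCost Y Z : ℝ) ≤ pot (wX X) FX Z + Y.length * (2 + 3 * Real.logb 2 k)
  | [], Z, _, _, _ => by
      simp only [splayCost, List.length_nil]
      push_cast
      have := pot_FX_nonneg X Z
      linarith
  | x :: Y, Z, hb, hY, hw => by
      obtain ⟨hx, hxZ⟩ := hY x (by simp)
      have hwx : wX X x = 1 := by simp [wX, hx]
      have hcl : ∀ t, Closed (fun _ => True) t := by
        intro t
        induction t with
        | nil => trivial
        | node a l r h1 h2 => exact ⟨Or.inl trivial, h1, h2⟩
      obtain ⟨-, a2, a3⟩ := splay_amortized (good_FX hx) trivial (wX_nonneg X)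
        (by rw [hwx]; norm_num) hb hxZ (hcl Z)
      have hZ' : wt (wX X) (splay x Z) = wt (wX X) Z := by rw [wt_eq_sum, wt_eq_sum, a2]
      have i := splayCost_le_X hk Y (splay x Z) (by rw [IsBST, a2]; exact hb)
        (fun y hy => by rw [a2]; exact hY y (by simp [hy])) (by rw [hZ']; exact hw)
      rw [hwx, Real.logb_one] at a3
      have hpos : 1 ≤ wt (wX X) Z := by
        rcases zero_or_one_le (wt_nat X Z) with h | h
        · exfalso
          have h1 := le_swt (wX_nonneg X) (at_of_mem hb hxZ)
          have h2 : swt (wX X) x Z ≤ wt (wX X) Z := by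
            clear * -
            induction Z with
            | nil => simp [swt, wt]
            | node a l r h1 h2 =>
              have := wt_nonneg (wX_nonneg X) l
              have := wt_nonneg (wX_nonneg X) r
              have := wX_nonneg X a
              simp only [swt, wt]
              split_ifs <;> linarith
          linarith
        · exact h
      have h1 := lg_mono (by linarith) hw
      simp only [splayCost, List.length_cons]
      push_cast
      linarith

theorem sum_wX (X : List ℕ) : ∀ L : List ℕ,
    (L.map (wX X)).sum = ((L.filter (fun v => v ∈ X)).length : ℝ)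
  | [] => by simp
  | a :: L => by
      rw [List.map_cons, List.sum_cons, sum_wX X L, List.filter_cons]
      by_cases h : a ∈ X
      · simp [wX, h]; ring
      · simp [wX, h]

theorem filter_length_le {L : List ℕ} (hL : L.Nodup) (p : ℕ → Bool) (A : Finset ℕ)
    (h : ∀ v ∈ L, p v = true → v ∈ A) : (L.filter p).length ≤ A.card := by
  rw [← List.toFinset_card_of_nodup (hL.filter p)]
  apply Finset.card_le_card
  intro v hv
  rw [List.mem_toFinset, List.mem_filter] at hv
  exact h v hv.1 hv.2

theorem bst_nodup {T : BinaryTree ℕ} (hT : IsBST T) : (inorder T).Nodup :=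
  List.Pairwise.imp (fun h => Nat.ne_of_lt h) hT

/-! ## Few rotations -/

/-! ## The result -/

end Pool.Agent.SplRM
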