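import Mathlib

set_option autoImplicit false

/-!
# Splaying, root moves and executions

Keys are natural numbers; a binary search tree is a `BinaryTree ℕ` whose symmetric order is
strictly increasing.  The notions follow the problem file of `MP_c42954_lc`.  An execution comes
with the list of those of its rotations which are not part of a root move of the requested key.
-/

namespace Pool.Agent.SplRM

open BinaryTree

/-- The keys of a tree in symmetric order. -/
def inorder : BinaryTree ℕ → List ℕ
  | .nil => []
  | .node a l r => inorder l ++ a :: inorder r

/-- Binary search trees: the symmetric order is strictly increasing. -/
def IsBST (t : BinaryTree ℕ) : Prop := (inorder t).Pairwise (· < ·)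

/-- Depth of the key `x` (number of edges from the root), read off along the search path. -/
def depth (x : ℕ) : BinaryTree ℕ → ℕ
  | .nil => 0
  | .node a l r => if x = a then 0 else if x < a then depth x l + 1 else depth x r + 1

/-- `Rot a b t t'`: the tree `t'` arises from `t` by one rotation at the node `b`, whose parent
is `a`. -/
inductive Rot (a b : ℕ) : BinaryTree ℕ → BinaryTree ℕ → Prop
  | atLeftChild (A B C : BinaryTree ℕ) :
      Rot a b (.node a (.node b A B) C) (.node b A (.node a B C))
  | atRightChild (A B C : BinaryTree ℕ) :
      Rot a b (.node a A (.node b B C)) (.node b (.node a A B) C)
  | inLeft (c : ℕ) {l l' : BinaryTree ℕ} (r : BinaryTree ℕ) :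
      Rot a b l l' → Rot a b (.node c l r) (.node c l' r)
  | inRight (c : ℕ) (l : BinaryTree ℕ) {r r' : BinaryTree ℕ} :
      Rot a b r r' → Rot a b (.node c l r) (.node c l r')

/-- One splaying step at the key `x`.
* `x` is the root (or absent): nothing happens.
* The parent of `x` is the root: rotate at `x` (zig).
* `x` has parent `y` and grandparent `z` on the same side: rotate at `y`, then at `x` (zig-zig).
* `x` has parent `y` and grandparent `z` on different sides: rotate at `x` twice (zig-zag).
* `x` lies deeper: the same step is carried out further down, inside the subtree holding `x`. -/
def splayStep (x : ℕ) : BinaryTree ℕ → BinaryTree ℕ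
  | .nil => .nil
  | .node z l r =>
    if x = z then .node z l r
    else if x < z then
      match l with
      | .nil => .node z .nil r
      | .node y a c =>
        if x = y then .node y a (.node z c r)
        else if x < y then
          match a with
          | .nil => .node z (.node y .nil c) r
          | .node w p q =>
            if x = w then .node w p (.node y q (.node z c r))
            else .node z (splayStep x l) r
        else
          match c with
          | .nil => .node z (.node y a .nil) r
          | .node w p q =>
            if x = w then .node w (.node y a p) (.node z q r)
            else .node z (splayStep x l) r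
    else
      match r with
      | .nil => .node z l .nil
      | .node y a c =>
        if x = y then .node y (.node z l a) c
        else if y < x then
          match c with
          | .nil => .node z l (.node y a .nil)
          | .node w p q =>
            if x = w then .node w (.node y (.node z l a) p) q
            else .node z l (splayStep x r)
        else
          match a with
          | .nil => .node z l (.node y .nil c)
          | .node w p q =>
            if x = w then .node w (.node z l p) (.node y q c)
            else .node z l (splayStep x r)

/-- Splaying `x`: splaying steps at `x` are repeated until `x` is the root.  (Every step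
lowers the depth of `x`, and a step does nothing once `x` is the root, so `depth x t` steps
are enough and more do no harm.) -/
def splay (x : ℕ) (t : BinaryTree ℕ) : BinaryTree ℕ := (splayStep x)^[depth x t] t

/-- `cost_splay(X, T)`: each request costs one plus the depth of the requested key. -/
def splayCost : List ℕ → BinaryTree ℕ → ℕ
  | [], _ => 0
  | x :: X, T => (1 + depth x T) + splayCost X (splay x T)

/-- Move to root: the tree which arises when `x` is rotated until it is the root.  (First `x` is
moved to the root of the subtree of the root which holds it; then one more rotation at `x`.) -/
def toRoot (x : ℕ) : BinaryTree ℕ → BinaryTree ℕ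
  | .nil => .nil
  | .node a l r =>
    if x = a then .node a l r
    else if x < a then
      match toRoot x l with
      | .nil => .node a .nil r
      | .node b A B => .node b A (.node a B r)
    else
      match toRoot x r with
      | .nil => .node a l .nil
      | .node b A B => .node b (.node a l A) B

/-- The cost of searching with the rule that every requested key is moved to the root by rotations
at it: each request costs one plus the depth of the requested key; the rotations are not charged. -/
def rootCost : List ℕ → BinaryTree ℕ → ℕ
  | [], _ => 0
  | x :: X, T => (1 + depth x T) + rootCost X (toRoot x T)

/-- `RootMove x t t'`: rotations, each of them at the node `x`, turn `t` into the tree `t'` with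
root `x`. -/
inductive RootMove (x : ℕ) : BinaryTree ℕ → BinaryTree ℕ → Prop
  | done (l r : BinaryTree ℕ) : RootMove x (.node x l r) (.node x l r)
  | step {a : ℕ} {t u v : BinaryTree ℕ} : Rot a x t u → RootMove x u v → RootMove x t v

/-- `Restr x P t t'`: a sequence of root moves of `x` and of further rotations turns `t` into
`t'`; the further rotations, in their order, are those recorded in the list `P`, where the entry
`(a, b)` stands for a rotation at `b`, whose parent is `a`. -/
inductive Restr (x : ℕ) : List (ℕ × ℕ) → BinaryTree ℕ → BinaryTree ℕ → Prop
  | refl (t : BinaryTree ℕ) : Restr x [] t t
  | rot {a b : ℕ} {P : List (ℕ × ℕ)} {t u v : BinaryTree ℕ} :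
      Rot a b t u → Restr x P u v → Restr x ((a, b) :: P) t v
  | root {P : List (ℕ × ℕ)} {t u v : BinaryTree ℕ} :
      RootMove x t u → Restr x P u v → Restr x P t v

/-- `Exec T X P c`: there is an execution for `(X, T)` in which, at each request `x`, the tree `T`
is turned into `T'` by root moves of `x` and further rotations and `x` is searched for in `T`; then
the remaining requests are served from `T'`.  The list `P` records the further rotations of all
requests, and `c` is the cost of the execution when the root moves are free: a request costs one
plus the number of its further rotations plus the depth of `x` in `T`. -/
inductive Exec : BinaryTree ℕ → List ℕ → List (ℕ × ℕ) → ℕ → Prop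
  | nil (T : BinaryTree ℕ) : Exec T [] [] 0
  | cons {T T' : BinaryTree ℕ} {x : ℕ} {X : List ℕ} {P Q : List (ℕ × ℕ)} {c : ℕ} :
      Restr x P T T' → Exec T' X Q c → Exec T (x :: X) (P ++ Q) (1 + P.length + depth x T + c)

end Pool.Agent.SplRM
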