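import Pool.Agent.SplRM.Main

set_option autoImplicit false

/-!
# Few further rotations; move to root
-/

namespace Pool.Agent.SplRM

open BinaryTree Classical

/-- Splaying against executions with few rotations outside root moves. -/
theorem few_rotations {T : BinaryTree ℕ} {X : List ℕ} {P : List (ℕ × ℕ)} {c : ℕ}
    (hT : IsBST T) (hX : ∀ x ∈ X, x ∈ inorder T) (hE : Exec T X P c) :
    (splayCost X T : ℝ) ≤ (6 + 4 * Real.logb 2 (max 1 (2 * P.length) : ℕ)) * c := by
  set M : List ℕ := P.flatMap (fun p => [p.1, p.2]) with hM
  have hMlen : M.length = 2 * P.length := by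
    rw [hM]
    clear * -
    induction P with
    | nil => simp
    | cons p P ih => simp only [List.flatMap_cons, List.length_append, List.length_cons,
        List.length_nil, ih]; ring
  set κ : ℕ → ℕ := fun v => if v ∈ M then 0 else v + 1 with hκ
  have hcnt : ∀ q, ((inorder T).filter (fun y => κ y = q)).length ≤ max 1 (2 * P.length) := by
    intro q
    rcases Nat.eq_zero_or_pos q with hq | hq
    · subst hq
      have h1 := filter_length_le (bst_nodup hT) (fun y => κ y = 0) M.toFinset (by
        intro v _ hv
        rw [List.mem_toFinset]
        by_contra hcon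
        simp [hκ, hcon] at hv)
      have h2 := M.toFinset_card_le
      rw [hMlen] at h2
      exact (h1.trans h2).trans (le_max_right _ _)
    · have h1 := filter_length_le (bst_nodup hT) (fun y => κ y = q) {q - 1} (by
        intro v _ hv
        rw [Finset.mem_singleton]
        simp only [hκ, decide_eq_true_eq] at hv
        split_ifs at hv <;> omega)
      rw [Finset.card_singleton] at h1
      exact h1.trans (le_max_left _ _)
  have hac : across κ P = 0 := by
    unfold across
    rw [List.length_eq_zero_iff, List.filter_eq_nil_iff]
    intro p hp
    have h1 : p.1 ∈ M := by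
      rw [hM, List.mem_flatMap]; exact ⟨p, hp, by simp⟩
    have h2 : p.2 ∈ M := by
      rw [hM, List.mem_flatMap]; exact ⟨p, hp, by simp⟩
    simp [hκ, h1, h2]
  have := clusters hT hX hE hcnt
  rw [hac] at this
  push_cast at this ⊢
  linarith

theorem rootMove_left {x a : ℕ} {l l' : BinaryTree ℕ} (h : RootMove x l l') (r : BinaryTree ℕ) :
    ∀ A B, l' = .node x A B → RootMove x (.node a l r) (.node x A (.node a B r)) := by
  induction h with
  | done A' B' =>
    intro A B he
    injection he with h1 h2 h3
    subst h2 h3
    exact .step (.atLeftChild _ _ _) (.done _ _)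
  | step h _ ih =>
    intro A B he
    exact .step (.inLeft a r h) (ih A B he)

theorem rootMove_right {x a : ℕ} {r r' : BinaryTree ℕ} (h : RootMove x r r') (l : BinaryTree ℕ) :
    ∀ A B, r' = .node x A B → RootMove x (.node a l r) (.node x (.node a l A) B) := by
  induction h with
  | done A' B' =>
    intro A B he
    injection he with h1 h2 h3
    subst h2 h3
    exact .step (.atRightChild _ _ _) (.done _ _)
  | step h _ ih =>
    intro A B he
    exact .step (.inRight a l h) (ih A B he)

theorem toRoot_move {x : ℕ} : ∀ {t : BinaryTree ℕ}, IsBST t → x ∈ inorder t →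
    RootMove x t (toRoot x t)
  | .nil, _, h => by simp [inorder] at h
  | .node a l r, hb, h => by
      obtain ⟨hl, hr, h1, h2⟩ := bst_node hb
      rcases lt_trichotomy x a with h3 | h3 | h3
      · have e1 : x ≠ a := by omega
        have i := toRoot_move hl (mem_left_of_lt hb h h3)
        have j := (rootMove_eq i hl).1
        simp only [toRoot, e1, h3, if_true, if_false]
        rw [j]
        exact rootMove_left i r _ _ j
      · subst h3
        simp only [toRoot, if_true]
        exact .done _ _
      · have e1 : x ≠ a := by omega
        have e2 : ¬ x < a := by omega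
        have i := toRoot_move hr (mem_right_of_lt hb h h3)
        have j := (rootMove_eq i hr).1
        simp only [toRoot, e1, e2, if_false]
        rw [j]
        exact rootMove_right i l _ _ j

theorem toRoot_exec : ∀ (X : List ℕ) (T : BinaryTree ℕ), IsBST T → (∀ x ∈ X, x ∈ inorder T) →
    Exec T X [] (rootCost X T)
  | [], T, _, _ => .nil T
  | x :: X, T, hT, hX => by
      have h1 := toRoot_move hT (hX x (by simp))
      have h2 := (rootMove_eq h1 hT).2
      have h3 := toRoot_exec X (toRoot x T) (by rw [IsBST, h2]; exact hT)
        (fun y hy => by rw [h2]; exact hX y (by simp [hy]))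
      have h4 := Exec.cons (Restr.root h1 (Restr.refl _)) h3
      simpa [rootCost] using h4

/-- Splaying against move to root. -/
theorem splay_le_root {T : BinaryTree ℕ} {X : List ℕ} (hT : IsBST T)
    (hX : ∀ x ∈ X, x ∈ inorder T) : splayCost X T ≤ 6 * rootCost X T := by
  have h := few_rotations hT hX (toRoot_exec X T hT hX)
  simp at h
  exact_mod_cast h

end Pool.Agent.SplRM
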