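import Pool.Agent.SplRM.Rank

set_option autoImplicit false

/-!
# The rank function attached to a tree and a labelling
-/

namespace Pool.Agent.SplRM

open BinaryTree Classical

/-- The least value of `c` on a list. -/
noncomputable def mn (c : ℕ → ℕ) (L : List ℕ) : ℕ := sInf {m | ∃ k ∈ L, c k = m}

theorem mn_le {c : ℕ → ℕ} {L : List ℕ} {k : ℕ} (hk : k ∈ L) : mn c L ≤ c k :=
  Nat.sInf_le ⟨k, hk, rfl⟩

theorem mn_mem {c : ℕ → ℕ} {L : List ℕ} (hL : L ≠ []) : ∃ k ∈ L, c k = mn c L := by
  obtain ⟨a, ha⟩ := List.exists_mem_of_ne_nil L hL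
  exact Nat.sInf_mem (s := {m | ∃ k ∈ L, c k = m}) ⟨c a, a, ha, rfl⟩

/-- The number of keys in the list whose label is the label of a key with least level. -/
noncomputable def zc (c κ : ℕ → ℕ) (L : List ℕ) : ℕ :=
  (L.filter (fun k => decide (∃ j ∈ L, c j = mn c L ∧ κ k = κ j))).length

/-- In an interval all the keys with least level have the same label. -/
def Uniq (c κ : ℕ → ℕ) (KL : List ℕ) : Prop :=
  ∀ L : List ℕ, L <:+: KL → ∀ j ∈ L, ∀ j' ∈ L, c j = mn c L → c j' = mn c L → κ j = κ j'

/-- At most `s` keys of each label. -/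
def Bdd (κ : ℕ → ℕ) (s : ℕ) (KL : List ℕ) : Prop :=
  ∀ q, (KL.filter (fun y => decide (κ y = q))).length ≤ s

section

variable {c c' κ : ℕ → ℕ} {s : ℕ} {KL L M : List ℕ}

theorem zc_pos (hL : L ≠ []) : 1 ≤ zc c κ L := by
  obtain ⟨k, hk, hk'⟩ := mn_mem (c := c) hL
  unfold zc
  rw [Nat.one_le_iff_ne_zero, Ne, List.length_eq_zero_iff, List.filter_eq_nil_iff]
  intro h
  exact h k hk (by simpa using ⟨k, hk, hk', rfl⟩)

theorem zc_eq (hU : Uniq c κ KL) (hLK : L <:+: KL) {j : ℕ} (hj : j ∈ L) (hj' : c j = mn c L) :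
    zc c κ L = (L.filter (fun k => decide (κ k = κ j))).length := by
  unfold zc
  congr 1
  apply List.filter_congr
  intro k hk
  simp only [decide_eq_decide]
  constructor
  · rintro ⟨i, hi, hi', hi''⟩
    rw [hi'']
    exact hU L hLK i hi j hj hi' hj'
  · intro h
    exact ⟨j, hj, hj', h⟩

theorem zc_le (hU : Uniq c κ KL) (hB : Bdd κ s KL) (hLK : L <:+: KL) (hL : L ≠ []) :
    zc c κ L ≤ s := by
  obtain ⟨j, hj, hj'⟩ := mn_mem (c := c) hL
  rw [zc_eq hU hLK hj hj']
  exact ((hLK.sublist.filter _).length_le).trans (hB (κ j))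

theorem one_le_s (hU : Uniq c κ KL) (hB : Bdd κ s KL) (hLK : L <:+: KL) (hL : L ≠ []) : 1 ≤ s :=
  (zc_pos (c := c) (κ := κ) hL).trans (zc_le hU hB hLK hL)

/-- The rank. -/
noncomputable def rk (c κ : ℕ → ℕ) (K : ℝ) (L : List ℕ) : ℝ :=
  -K * mn c L + Real.logb 2 (zc c κ L)

theorem mn_anti (hL : L ≠ []) (h : ∀ k ∈ L, k ∈ M) : mn c M ≤ mn c L := by
  obtain ⟨k, hk, hk'⟩ := mn_mem (c := c) hL
  rw [← hk']
  exact mn_le (h k hk)

theorem lg_zc_nonneg (hL : L ≠ []) : 0 ≤ Real.logb 2 (zc c κ L) :=
  Real.logb_nonneg (by norm_num) (by exact_mod_cast zc_pos (c := c) (κ := κ) hL)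

theorem lg_zc_le (hU : Uniq c κ KL) (hB : Bdd κ s KL) (hLK : L <:+: KL) (hL : L ≠ []) :
    Real.logb 2 (zc c κ L) ≤ Real.logb 2 s := by
  apply lg_mono
  · exact_mod_cast zc_pos (c := c) (κ := κ) hL
  · exact_mod_cast zc_le hU hB hLK hL

theorem rk_lt {K : ℝ} (hK : K = 2 + Real.logb 2 s) (hU : Uniq c κ KL) (hB : Bdd κ s KL)
    (hLK : L <:+: KL) (hL : L ≠ []) {m : ℕ} (hm : m < mn c L) :
    rk c κ K L + 2 ≤ -K * m := by
  have h1 := lg_zc_le hU hB hLK hL
  have h2 := lg_zc_nonneg (c := c) (κ := κ) hL
  have h3 : (m : ℝ) + 1 ≤ mn c L := by exact_mod_cast hm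
  have hK0 : 0 ≤ K := by linarith
  unfold rk
  nlinarith [mul_le_mul_of_nonneg_left h3 hK0]

theorem rk_ge {K : ℝ} (hL : L ≠ []) : -K * mn c L ≤ rk c κ K L := by
  have h2 := lg_zc_nonneg (c := c) (κ := κ) hL
  unfold rk
  linarith

theorem rank_rk {K : ℝ} (hK : K = 2 + Real.logb 2 s) (hU : Uniq c κ KL) (hB : Bdd κ s KL) :
    Rank KL (rk c κ K) := by
  have mono : ∀ L M : List ℕ, L ≠ [] → L <:+: M → M <:+: KL → rk c κ K L ≤ rk c κ K M := by
    intro L M hL hLM hMK
    have hM : M ≠ [] := by
      rintro rfl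
      exact hL (List.infix_nil.mp hLM)
    have hsub : ∀ k ∈ L, k ∈ M := fun k hk => hLM.subset hk
    have hle := mn_anti (c := c) hL hsub
    rcases hle.lt_or_eq with h | h
    · have := rk_lt hK hU hB (hLM.trans hMK) hL h
      have := rk_ge (c := c) (κ := κ) (K := K) hM
      linarith
    · have hz : zc c κ L ≤ zc c κ M := by
        obtain ⟨j, hj, hj'⟩ := mn_mem (c := c) hL
        rw [zc_eq hU (hLM.trans hMK) hj hj', zc_eq hU hMK (hsub j hj) (hj'.trans h.symm)]
        exact (hLM.sublist.filter _).length_le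
      have := lg_mono (a := (zc c κ L : ℝ)) (b := (zc c κ M : ℝ))
        (by exact_mod_cast zc_pos (c := c) (κ := κ) hL) (by exact_mod_cast hz)
      unfold rk
      rw [h]
      linarith
  refine ⟨mono, ?_⟩
  intro L p M hL hM hW
  set W := L ++ p :: M with hWdef
  have hLW : L <:+: W := ⟨[], p :: M, by simp [hWdef]⟩
  have hMW : M <:+: W := ⟨L ++ [p], [], by simp [hWdef]⟩
  have hWn : W ≠ [] := by simp [hWdef]
  have m1 := mono L W hL hLW hW
  have m2 := mono M W hM hMW hW
  have g := rk_ge (c := c) (κ := κ) (K := K) hWn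
  have l1 := mn_anti (c := c) hL (fun k hk => hLW.subset hk)
  have l2 := mn_anti (c := c) hM (fun k hk => hMW.subset hk)
  rcases l1.lt_or_eq with h | h
  · have := rk_lt hK hU hB (hLW.trans hW) hL h
    linarith
  rcases l2.lt_or_eq with h' | h'
  · have := rk_lt hK hU hB (hMW.trans hW) hM h'
    linarith
  obtain ⟨j, hj, hj'⟩ := mn_mem (c := c) hL
  obtain ⟨i, hi, hi'⟩ := mn_mem (c := c) hM
  have hjW : c j = mn c W := hj'.trans h.symm
  have hiW : c i = mn c W := hi'.trans h'.symm
  have hji : κ j = κ i := hU W hW j (hLW.subset hj) i (hMW.subset hi) hjW hiW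
  have e1 := zc_eq hU (hLW.trans hW) hj hj'
  have e2 := zc_eq hU (hMW.trans hW) hi hi'
  have e3 := zc_eq hU hW (hLW.subset hj) hjW
  rw [← hji] at e2
  have e4 : zc c κ L + zc c κ M ≤ zc c κ W := by
    rw [e1, e2, e3, hWdef, List.filter_append, List.length_append, List.filter_cons]
    split_ifs
    · simp only [List.length_cons]; omega
    · omega
  have := lg_add (a := (zc c κ L : ℝ)) (b := (zc c κ M : ℝ)) (c := (zc c κ W : ℝ))
    (by exact_mod_cast zc_pos (c := c) (κ := κ) hL) (by exact_mod_cast zc_pos (c := c) (κ := κ) hM)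
    (by exact_mod_cast e4)
  unfold rk
  rw [← h, ← h']
  linarith

/-- Comparison of the terms of the potential for two level functions. -/
theorem compare {K : ℝ} (hK : K = 2 + Real.logb 2 s) (hU : Uniq c κ KL) (hU' : Uniq c' κ KL)
    (hB : Bdd κ s KL) (hLK : L <:+: KL) {v m : ℕ} (hv : v ∈ L)
    (h : ∃ j ∈ L, c' j = mn c' L ∧ c' v + mn c L ≤ mn c' L + c v + m ∧
      (c' v + mn c L = mn c' L + c v + m → c j = mn c L)) :
    rk c' κ K L + K * c' v ≤ rk c κ K L + K * c v + m * K := by
  have hL : L ≠ [] := List.ne_nil_of_mem hv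
  obtain ⟨j, hj, hj', h1, h2⟩ := h
  have hl := lg_zc_le hU' hB hLK hL
  have hl0 := lg_zc_nonneg (c := c) (κ := κ) hL
  have hl0' := lg_zc_nonneg (c := c') (κ := κ) hL
  have hK0 : 0 ≤ K := by linarith
  unfold rk
  rcases h1.lt_or_eq with h3 | h3
  · have h4 : (c' v : ℝ) + mn c L + 1 ≤ mn c' L + c v + m := by exact_mod_cast h3
    nlinarith [mul_le_mul_of_nonneg_left h4 hK0]
  · have h4 : (c' v : ℝ) + mn c L = mn c' L + c v + m := by exact_mod_cast h3
    have e1 := zc_eq hU hLK hj (h2 h3)
    have e2 := zc_eq hU' hLK hj hj'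
    rw [e1, ← e2]
    nlinarith [congrArg (fun t => K * t) h4]

theorem term_nonneg {K : ℝ} (hK : K = 2 + Real.logb 2 s) (hs : 1 ≤ s) {v : ℕ} (hv : v ∈ L) :
    0 ≤ rk c κ K L + K * c v := by
  have hL : L ≠ [] := List.ne_nil_of_mem hv
  have h1 := rk_ge (c := c) (κ := κ) (K := K) hL
  have h2 : (mn c L : ℝ) ≤ c v := by exact_mod_cast mn_le hv
  have h3 : 0 ≤ Real.logb 2 (s : ℝ) := Real.logb_nonneg (by norm_num) (by exact_mod_cast hs)
  have hK0 : 0 ≤ K := by linarith
  nlinarith [mul_le_mul_of_nonneg_left h2 hK0]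

theorem rpot_nonneg {K : ℝ} (hK : K = 2 + Real.logb 2 s) (hs : 1 ≤ s) {S : ℕ → Prop} :
    ∀ t : BinaryTree ℕ, 0 ≤ rpot S (rk c κ K) (fun v => K * c v) t
  | .nil => by simp [rpot]
  | .node a l r => by
      have h1 := rpot_nonneg hK hs (S := S) l
      have h2 := rpot_nonneg hK hs (S := S) r
      have h3 := term_nonneg (c := c) (κ := κ) hK hs (L := inorder (.node a l r)) (v := a)
        (by simp [inorder])
      simp only [rpot]
      split_ifs <;> linarith

end

/-! ## Intervals of a sorted list -/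

theorem infix_between {L W : List ℕ} (h : L <:+: W) (hW : W.Pairwise (· < ·)) {v k j : ℕ}
    (hv : v ∈ L) (hk : k ∈ L) (hj : j ∈ W) (h1 : v ≤ j) (h2 : j ≤ k) : j ∈ L := by
  obtain ⟨A, B, rfl⟩ := h
  rw [List.pairwise_append, List.pairwise_append] at hW
  obtain ⟨⟨_, _, hAL⟩, _, hB⟩ := hW
  simp only [List.mem_append] at hj
  rcases hj with (hj | hj) | hj
  · have := hAL j hj v hv
    omega
  · exact hj
  · have := hB k (by simp [hk]) j hj
    omega

/-! ## Levels -/

theorem bst_node {a : ℕ} {l r : BinaryTree ℕ} (h : IsBST (.node a l r)) :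
    IsBST l ∧ IsBST r ∧ (∀ v ∈ inorder l, v < a) ∧ (∀ v ∈ inorder r, a < v) := by
  simp only [IsBST, inorder, List.pairwise_append, List.pairwise_cons, List.mem_cons] at h
  exact ⟨h.1, h.2.1.2, fun v hv => h.2.2 v hv a (Or.inl rfl), h.2.1.1⟩

theorem lev_zero {κ : ℕ → ℕ} {v : ℕ} : ∀ {t : BinaryTree ℕ} {q : ℕ}, IsBST t → v ∈ inorder t →
    lev κ v q t = 0 → κ v = q
  | .nil, q, _, h, _ => by simp [inorder] at h
  | .node a l r, q, hb, hv, h => by
      obtain ⟨hl, hr, h1, h2⟩ := bst_node hb
      simp only [lev] at h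
      simp only [inorder, List.mem_append, List.mem_cons] at hv
      by_cases hq : κ a = q
      · simp only [hq, if_true, zero_add] at h
        rcases hv with hv | hv | hv
        · have h3 := h1 v hv
          have h4 : v ≠ a := by omega
          simp only [h3, h4, if_true, if_false] at h
          exact lev_zero hl hv h
        · rw [hv]; exact hq
        · have h3 := h2 v hv
          have h4 : v ≠ a := by omega
          have h5 : ¬ v < a := by omega
          simp only [h4, h5, if_false] at h
          exact lev_zero hr hv h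
      · simp [hq] at h

theorem lev_lca {κ : ℕ → ℕ} {v k : ℕ} (hvk : v ≤ k) : ∀ {t : BinaryTree ℕ} {q : ℕ}, IsBST t →
    v ∈ inorder t → k ∈ inorder t → ∃ j ∈ inorder t, v ≤ j ∧ j ≤ k ∧
      lev κ j q t ≤ lev κ v q t ∧ lev κ j q t ≤ lev κ k q t ∧
      (lev κ j q t = lev κ v q t → κ j = κ v) ∧ (lev κ j q t = lev κ k q t → κ j = κ k)
  | .nil, q, _, h, _ => by simp [inorder] at h
  | .node a l r, q, hb, hv, hk => by
      obtain ⟨hl, hr, h1, h2⟩ := bst_node hb
      by_cases hva : v ≤ a
      · by_cases hak : a ≤ k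
        · refine ⟨a, by simp [inorder], hva, hak, ?_⟩
          have key : ∀ u ∈ inorder (.node a l r), lev κ a q (.node a l r) ≤ lev κ u q (.node a l r) ∧
              (lev κ a q (.node a l r) = lev κ u q (.node a l r) → κ a = κ u) := by
            intro u hu
            simp only [inorder, List.mem_append, List.mem_cons] at hu
            rcases hu with hu | hu | hu
            · have h3 := h1 u hu
              have h4 : u ≠ a := by omega
              simp only [lev, h3, h4, if_true, if_false]
              refine ⟨by omega, fun h => ?_⟩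
              exact (lev_zero hl hu (by omega)).symm
            · subst hu
              exact ⟨le_refl _, fun _ => rfl⟩
            · have h3 := h2 u hu
              have h4 : u ≠ a := by omega
              have h5 : ¬ u < a := by omega
              simp only [lev, h4, h5, if_true, if_false]
              refine ⟨by omega, fun h => ?_⟩
              exact (lev_zero hr hu (by omega)).symm
          exact ⟨(key v hv).1, (key k hk).1, (key v hv).2, (key k hk).2⟩
        · have hv' : v ∈ inorder l := by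
            simp only [inorder, List.mem_append, List.mem_cons] at hv
            rcases hv with hv | hv | hv
            · exact hv
            · omega
            · have := h2 v hv; omega
          have hk' : k ∈ inorder l := by
            simp only [inorder, List.mem_append, List.mem_cons] at hk
            rcases hk with hk | hk | hk
            · exact hk
            · omega
            · have := h2 k hk; omega
          obtain ⟨j, hj, i1, i2, i3, i4, i5, i6⟩ := lev_lca hvk (q := κ a) hl hv' hk'
          have lv : ∀ u ∈ inorder l, lev κ u q (.node a l r)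
              = (if κ a = q then 0 else 1) + lev κ u (κ a) l := by
            intro u hu
            have h3 := h1 u hu
            have h4 : u ≠ a := by omega
            simp only [lev, h3, h4, if_true, if_false]
          rw [lv v hv', lv k hk']
          refine ⟨j, by simp [inorder, hj], i1, i2, ?_⟩
          rw [lv j hj]
          exact ⟨by omega, by omega, fun h => i5 (by omega), fun h => i6 (by omega)⟩
      · have hv' : v ∈ inorder r := by
          simp only [inorder, List.mem_append, List.mem_cons] at hv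
          rcases hv with hv | hv | hv
          · have := h1 v hv; omega
          · omega
          · exact hv
        have hk' : k ∈ inorder r := by
          simp only [inorder, List.mem_append, List.mem_cons] at hk
          rcases hk with hk | hk | hk
          · have := h1 k hk; omega
          · omega
          · exact hk
        obtain ⟨j, hj, i1, i2, i3, i4, i5, i6⟩ := lev_lca hvk (q := κ a) hr hv' hk'
        have lv : ∀ u ∈ inorder r, lev κ u q (.node a l r)
            = (if κ a = q then 0 else 1) + lev κ u (κ a) r := by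
          intro u hu
          have h3 := h2 u hu
          have h4 : u ≠ a := by omega
          have h5 : ¬ u < a := by omega
          simp only [lev, h4, h5, if_false]
        rw [lv v hv', lv k hk']
        refine ⟨j, by simp [inorder, hj], i1, i2, ?_⟩
        rw [lv j hj]
        exact ⟨by omega, by omega, fun h => i5 (by omega), fun h => i6 (by omega)⟩

theorem uniq_lev {κ : ℕ → ℕ} {M : BinaryTree ℕ} (hM : IsBST M) (q : ℕ) :
    Uniq (fun v => lev κ v q M) κ (inorder M) := by
  have key : ∀ L : List ℕ, L <:+: inorder M → ∀ j ∈ L, ∀ j' ∈ L, j ≤ j' →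
      lev κ j q M = mn (fun v => lev κ v q M) L → lev κ j' q M = mn (fun v => lev κ v q M) L →
      κ j = κ j' := by
    intro L hL j hj j' hj' hle e1 e2
    obtain ⟨i, hi, i1, i2, i3, i4, i5, i6⟩ := lev_lca (κ := κ) hle (q := q) hM (hL.subset hj)
      (hL.subset hj')
    have hiL := infix_between hL hM hj hj' hi i1 i2
    have h : mn (fun v => lev κ v q M) L ≤ lev κ i q M := mn_le (c := fun v => lev κ v q M) hiL
    rw [← i5 (by omega), ← i6 (by omega)]
  intro L hL j hj j' hj' e1 e2
  rcases le_total j j' with h | h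
  · exact key L hL j hj j' hj' h e1 e2
  · exact (key L hL j' hj' j hj h e2 e1).symm

theorem lev_ge_root {κ : ℕ → ℕ} {a : ℕ} {l r : BinaryTree ℕ} {q : ℕ} (v : ℕ) :
    (if κ a = q then 0 else 1) ≤ lev κ v q (.node a l r) := by
  simp only [lev]
  omega

theorem lev_le_depth {κ : ℕ → ℕ} {a : ℕ} {l r : BinaryTree ℕ} {q : ℕ} (v : ℕ) :
    lev κ v q (.node a l r) ≤ (if κ a = q then 0 else 1) + depth v (.node a l r) := by
  have h1 := lev_le (κ := κ) v l (κ a)
  have h2 := lev_le (κ := κ) v r (κ a)
  simp only [lev, depth]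
  split_ifs <;> omega

theorem lev_le_mn {κ : ℕ → ℕ} {M : BinaryTree ℕ} {x q : ℕ} (hx : x ∈ inorder M) :
    lev κ x q M ≤ mn (fun v => lev κ v q M) (inorder M) + depth x M := by
  cases M with
  | nil => simp [inorder] at hx
  | node a l r =>
    obtain ⟨k, hk, hk'⟩ := mn_mem (c := fun v => lev κ v q (.node a l r))
      (List.ne_nil_of_mem hx)
    have h1 := lev_ge_root (κ := κ) (a := a) (l := l) (r := r) (q := q) k
    have h2 := lev_le_depth (κ := κ) (a := a) (l := l) (r := r) (q := q) x
    have hk'' : lev κ k q (.node a l r) = mn (fun v => lev κ v q (.node a l r))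
      (inorder (.node a l r)) := hk'
    omega

end Pool.Agent.SplRM
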