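import Pool.Agent.SplRM.Root

set_option autoImplicit false

/-!
# Splaying against executions made of root moves and further rotations
-/

namespace Pool.Agent.SplRM

open BinaryTree Classical

theorem restr_inorder {x : ℕ} {P : List (ℕ × ℕ)} {t t' : BinaryTree ℕ} (h : Restr x P t t') :
    IsBST t → inorder t' = inorder t := by
  induction h with
  | refl t => intro _; rfl
  | rot h _ ih =>
    intro hb
    rw [ih (by rw [IsBST, rot_inorder h]; exact hb), rot_inorder h]
  | root h _ ih =>
    intro hb
    have h1 := (rootMove_eq h hb).2
    rw [ih (by rw [IsBST, h1]; exact hb), h1]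

/-! ## The number of nodes on search paths -/

/-- The number of nodes which lie on the search path of some key of `X`, but not on the search
path of `x`. -/
def off (x : ℕ) (X : List ℕ) : BinaryTree ℕ → ℕ
  | .nil => 0
  | .node a l r =>
    if x = a then steiner (X.filter (· < a)) l + steiner (X.filter (a < ·)) r
    else if x < a then off x (X.filter (· < a)) l + steiner (X.filter (a < ·)) r
    else steiner (X.filter (· < a)) l + off x (X.filter (a < ·)) r

theorem off_le_steiner (x : ℕ) : ∀ (X : List ℕ) (t : BinaryTree ℕ), off x X t ≤ steiner X t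
  | X, .nil => by simp [off]
  | X, .node a l r => by
      have h1 := off_le_steiner x (X.filter (· < a)) l
      have h2 := off_le_steiner x (X.filter (a < ·)) r
      by_cases hX : X = []
      · subst hX
        simp only [List.filter_nil, steiner_nil_list] at h1 h2
        simp only [off, steiner, List.filter_nil, steiner_nil_list, if_true]
        split_ifs <;> omega
      · simp only [off, steiner, hX, if_false]
        split_ifs <;> omega

theorem steiner_cons_off (x : ℕ) : ∀ (X : List ℕ) (t : BinaryTree ℕ),
    steiner (x :: X) t ≤ 1 + depth x t + off x X t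
  | X, .nil => by simp [steiner]
  | X, .node a l r => by
      simp only [steiner, depth, off, List.filter_cons]
      rcases lt_trichotomy x a with h | h | h
      · have h1 : x ≠ a := by omega
        have h2 : ¬ a < x := by omega
        have := steiner_cons_off x (X.filter (· < a)) l
        simp only [h, h1, h2, decide_true, decide_false, if_true, if_false]
        simp
        omega
      · subst h
        simp
        omega
      · have h1 : x ≠ a := by omega
        have h2 : ¬ x < a := by omega
        have := steiner_cons_off x (X.filter (a < ·)) r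
        simp only [h, h1, h2, decide_true, decide_false, if_true, if_false]
        simp
        omega

theorem off_nil_list (x : ℕ) (t : BinaryTree ℕ) : off x [] t = 0 := by
  have := off_le_steiner x [] t
  rw [steiner_nil_list] at this
  omega

theorem filter_nil_of {X : List ℕ} {a b : ℕ} (h : b < a) (h' : X.filter (b < ·) = []) :
    X.filter (a < ·) = [] := by
  rw [← filter_gt_gt h, h']; rfl

theorem filter_nil_of' {X : List ℕ} {a b : ℕ} (h : b < a) (h' : X.filter (· < a) = []) :
    X.filter (· < b) = [] := by
  rw [← filter_lt_lt h, h']; rfl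

theorem off_rot {a b : ℕ} {t t' : BinaryTree ℕ} (h : Rot a b t t') (x : ℕ) :
    ∀ X : List ℕ, IsBST t → off x X t ≤ off x X t' + 1 := by
  induction h with
  | atLeftChild A B C =>
    intro X hb
    have hba : b < a := (bst_node hb).2.2.1 b (by simp [inorder])
    have hL : ∀ Y : List ℕ, steiner Y (.node a B C) ≥ steiner (Y.filter (· < a)) B +
        steiner (Y.filter (a < ·)) C := by
      intro Y
      by_cases hY : Y = []
      · subst hY; simp [steiner_nil_list]
      · simp only [steiner, hY, if_false]; omega
    have hR : ∀ Y : List ℕ, steiner Y (.node b A B) ≤ 1 + steiner (Y.filter (· < b)) A +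
        steiner (Y.filter (b < ·)) B := by
      intro Y
      by_cases hY : Y = []
      · subst hY; simp [steiner_nil_list]
      · simp only [steiner, hY, if_false]; omega
    have hL' := hL (X.filter (b < ·))
    have hR' := hR (X.filter (· < a))
    rw [filter_gt_gt hba, filter_comm'] at hL'
    rw [filter_lt_lt hba] at hR'
    simp only [off]
    rw [filter_gt_gt hba, filter_lt_lt hba, filter_comm']
    split_ifs <;> omega
  | atRightChild A B C =>
    intro X hb
    have hba : a < b := (bst_node hb).2.2.2 b (by simp [inorder])
    have hL : ∀ Y : List ℕ, steiner Y (.node a A B) ≥ steiner (Y.filter (· < a)) A +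
        steiner (Y.filter (a < ·)) B := by
      intro Y
      by_cases hY : Y = []
      · subst hY; simp [steiner_nil_list]
      · simp only [steiner, hY, if_false]; omega
    have hR : ∀ Y : List ℕ, steiner Y (.node b B C) ≤ 1 + steiner (Y.filter (· < b)) B +
        steiner (Y.filter (b < ·)) C := by
      intro Y
      by_cases hY : Y = []
      · subst hY; simp [steiner_nil_list]
      · simp only [steiner, hY, if_false]; omega
    have hL' := hL (X.filter (· < b))
    have hR' := hR (X.filter (a < ·))
    rw [filter_lt_lt hba] at hL'
    rw [filter_gt_gt hba, filter_comm'] at hR'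
    simp only [off]
    rw [filter_gt_gt hba, filter_lt_lt hba, filter_comm']
    split_ifs <;> omega
  | inLeft c r h ih =>
    intro X hb
    have h1 := ih (X.filter (· < c)) (bst_node hb).1
    have h2 := steiner_rot h (X.filter (· < c)) (bst_node hb).1
    simp only [off]
    split_ifs <;> omega
  | inRight c l h ih =>
    intro X hb
    have h1 := ih (X.filter (c < ·)) (bst_node hb).2.1
    have h2 := steiner_rot h (X.filter (c < ·)) (bst_node hb).2.1
    simp only [off]
    split_ifs <;> omega

theorem off_root (x : ℕ) : ∀ (X : List ℕ) (t : BinaryTree ℕ),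
    off x X t ≤ steiner (X.filter (· < x)) (lft x t) + steiner (X.filter (x < ·)) (rgt x t)
  | X, .nil => by simp [off]
  | X, .node a l r => by
      rcases lt_trichotomy x a with h | h | h
      · have h1 : x ≠ a := by omega
        have i := off_root x (X.filter (· < a)) l
        rw [filter_lt_lt h, ← filter_comm'] at i
        simp only [off, lft, rgt, h, h1, if_true, if_false]
        by_cases hX : X.filter (x < ·) = []
        · have e1 := filter_nil_of h hX
          rw [hX, List.filter_nil, steiner_nil_list] at i
          rw [e1, hX, steiner_nil_list, steiner_nil_list]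
          omega
        · simp only [steiner, hX, if_false]
          rw [filter_gt_gt h]
          omega
      · subst h
        simp [off, lft, rgt]
      · have h1 : x ≠ a := by omega
        have h2 : ¬ x < a := by omega
        have i := off_root x (X.filter (a < ·)) r
        rw [filter_gt_gt h, filter_comm'] at i
        simp only [off, lft, rgt, h1, h2, if_false]
        by_cases hX : X.filter (· < x) = []
        · have e1 := filter_nil_of' h hX
          rw [hX, List.filter_nil, steiner_nil_list] at i
          rw [e1, hX, steiner_nil_list, steiner_nil_list]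
          omega
        · simp only [steiner, hX, if_false]
          rw [filter_lt_lt h]
          omega

theorem off_restr {x : ℕ} {P : List (ℕ × ℕ)} {t t' : BinaryTree ℕ} (h : Restr x P t t')
    (X : List ℕ) : IsBST t → off x X t ≤ off x X t' + P.length := by
  induction h with
  | refl t => intro _; simp
  | rot h _ ih =>
    intro hb
    have h1 := off_rot h x X hb
    have h2 := ih (by rw [IsBST, rot_inorder h]; exact hb)
    simp only [List.length_cons]
    omega
  | @root P t u v h _ ih =>
    intro hb
    obtain ⟨h1, h2⟩ := rootMove_eq h hb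
    have h3 := ih (by rw [IsBST, h2]; exact hb)
    have h4 := off_root x X t
    rw [h1] at h3
    have h5 : off x X (.node x (lft x t) (rgt x t))
        = steiner (X.filter (· < x)) (lft x t) + steiner (X.filter (x < ·)) (rgt x t) := by
      simp [off]
    omega

/-- Every execution costs at least the number of nodes which lie on the search paths in the
initial tree, even when the root moves are not charged. -/
theorem steiner_le_rcost {T : BinaryTree ℕ} {X : List ℕ} {P : List (ℕ × ℕ)} {c : ℕ}
    (h : Exec T X P c) : IsBST T → steiner X T ≤ c := by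
  induction h with
  | nil T => intro _; rw [steiner_nil_list]
  | @cons T T' x X P Q c h1 h2 ih =>
    intro hb
    have a1 := steiner_cons_off x X T
    have a2 := off_restr h1 X hb
    have a3 := off_le_steiner x X T'
    have a4 := ih (by rw [IsBST, restr_inorder h1 hb]; exact hb)
    omega

theorem length_le_rcost {T : BinaryTree ℕ} {X : List ℕ} {P : List (ℕ × ℕ)} {c : ℕ}
    (h : Exec T X P c) : X.length ≤ c := by
  induction h with
  | nil T => simp
  | cons h1 h2 ih => simp only [List.length_cons]; omega

/-! ## Few requested keys -/

theorem few_keys {T : BinaryTree ℕ} {X : List ℕ} {P : List (ℕ × ℕ)} {c : ℕ}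
    (hT : IsBST T) (hX : ∀ x ∈ X, x ∈ inorder T) (hE : Exec T X P c) :
    (splayCost X T : ℝ) ≤ (4 + 4 * Real.logb 2 X.toFinset.card) * c := by
  rcases X.eq_nil_or_concat with h0 | ⟨X', x', h0⟩
  · subst h0
    simp [splayCost]
  · have hne : X ≠ [] := by rw [h0]; simp
    have hk : (1 : ℝ) ≤ X.toFinset.card := by
      have : 0 < X.toFinset.card := by
        rw [Finset.card_pos, List.toFinset_nonempty_iff]
        exact hne
      exact_mod_cast this
    have hw : wt (wX X) T ≤ X.toFinset.card := by
      rw [wt_eq_sum, sum_wX]
      exact_mod_cast filter_length_le (bst_nodup hT) _ X.toFinset (fun v _ hv => by simpa using hv)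
    have h1 := splayCost_le_X hk X T hT (fun x hx => ⟨hx, hX x hx⟩) hw
    have h2 := potX_le hk T X hT (fun v _ => Iff.rfl) hw
    have h3 : (steiner X T : ℝ) ≤ c := by exact_mod_cast steiner_le_rcost hE hT
    have h4 : (X.length : ℝ) ≤ c := by exact_mod_cast length_le_rcost hE
    have h5 := lg_nonneg hk
    nlinarith

/-! ## The initial potential -/

section Main

variable {κ : ℕ → ℕ} {s : ℕ} {K : ℝ} {S : ℕ → Prop}

theorem Uniq.sub {c : ℕ → ℕ} {KL L : List ℕ} (h : Uniq c κ KL) (hL : L <:+: KL) : Uniq c κ L :=
  fun L' hL' => h L' (hL'.trans hL)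

theorem Bdd.sub {KL L : List ℕ} (h : Bdd κ s KL) (hL : L <:+: KL) : Bdd κ s L :=
  fun q => ((hL.sublist.filter _).length_le).trans (h q)

theorem pot_init (hs : 1 ≤ s) {c : ℕ → ℕ} : ∀ (t : BinaryTree ℕ) (X : List ℕ) (q o : ℕ),
    IsBST t → (∀ v ∈ inorder t, c v = o + lev κ v q t) →
    (∀ v ∈ inorder t, S v ↔ OnPath X v t) → Bdd κ s (inorder t) → Uniq c κ (inorder t) →
    rpot S (rk c κ K) (fun v => K * c v) t ≤ steiner X t * Real.logb 2 s
  | .nil, X, q, o, _, _, _, _, _ => by simp [rpot, steiner]
  | .node a l r, X, q, o, hb, h, hS, hB, hU => by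
      have hs' : (1 : ℝ) ≤ s := by exact_mod_cast hs
      have hL0 : 0 ≤ Real.logb 2 (s : ℝ) := Real.logb_nonneg (by norm_num) hs'
      obtain ⟨hl, hr, hal, har⟩ := bst_node hb
      have il : inorder l <:+: inorder (.node a l r) := infix_left (List.infix_refl _)
      have ir : inorder r <:+: inorder (.node a l r) := infix_right (List.infix_refl _)
      have hcl : ∀ v ∈ inorder l, c v = (o + if κ a = q then 0 else 1) + lev κ v (κ a) l := by
        intro v hv
        rw [h v (by simp [inorder, hv]), lev_left (hal v hv)]
        omega
      have hcr : ∀ v ∈ inorder r, c v = (o + if κ a = q then 0 else 1) + lev κ v (κ a) r := by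
        intro v hv
        rw [h v (by simp [inorder, hv]), lev_right (har v hv)]
        omega
      by_cases hX : X = []
      · subst hX
        have h0 : ∀ v ∈ inorder (.node a l r), ¬ S v := fun v hv => by
          rw [hS v hv]; exact onPath_nil_list _
        have i1 := pot_init hs l [] (κ a) _ hl hcl (fun v hv =>
          iff_of_false (h0 v (by simp [inorder, hv])) (onPath_nil_list _)) (hB.sub il) (hU.sub il)
        have i2 := pot_init hs r [] (κ a) _ hr hcr (fun v hv =>
          iff_of_false (h0 v (by simp [inorder, hv])) (onPath_nil_list _)) (hB.sub ir) (hU.sub ir)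
        rw [steiner_nil_list] at i1 i2 ⊢
        have h1 : ¬ S a := h0 a (by simp [inorder])
        simp only [rpot, h1, if_false]
        push_cast at i1 i2 ⊢
        linarith
      · have hSa : S a := (hS a (by simp [inorder])).2 ⟨hX, Or.inl rfl⟩
        have i1 := pot_init hs l (X.filter (· < a)) (κ a) _ hl hcl (fun v hv => by
          rw [hS v (by simp [inorder, hv])]
          have h1 := hal v hv
          have h2 : v ≠ a := by omega
          have h3 : ¬ a < v := by omega
          simp [OnPath, hX, h1, h2, h3]) (hB.sub il) (hU.sub il)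
        have i2 := pot_init hs r (X.filter (a < ·)) (κ a) _ hr hcr (fun v hv => by
          rw [hS v (by simp [inorder, hv])]
          have h1 := har v hv
          have h2 : v ≠ a := by omega
          have h3 : ¬ v < a := by omega
          simp [OnPath, hX, h1, h2, h3]) (hB.sub ir) (hU.sub ir)
        have hmem : a ∈ inorder (.node a l r) := by simp [inorder]
        have hne : inorder (.node a l r) ≠ [] := List.ne_nil_of_mem hmem
        have e1 : c a = mn c (inorder (.node a l r)) := by
          apply le_antisymm
          · obtain ⟨u, hu, hu'⟩ := mn_mem (c := c) hne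
            rw [← hu', h u hu, h a hmem, lev_self]
            have := lev_ge_root (κ := κ) (a := a) (l := l) (r := r) (q := q) u
            omega
          · exact mn_le hmem
        have e2 := lg_zc_le hU hB (List.infix_refl _) hne
        have e3 : rk c κ K (inorder (.node a l r)) + K * c a ≤ Real.logb 2 s := by
          unfold rk
          rw [e1]
          linarith
        simp only [rpot, steiner, hX, hSa, if_true, if_false]
        push_cast
        linarith

/-! ## The main induction -/

theorem restr_pot (hK : K = 2 + Real.logb 2 s) (hK0 : 0 ≤ K) {x : ℕ} {P : List (ℕ × ℕ)}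
    {M M' : BinaryTree ℕ} (h : Restr x P M M') : IsBST M → Bdd κ s (inorder M) →
    ∀ t : BinaryTree ℕ, At x 0 t → inorder t = inorder M →
    PP κ K S M' t ≤ PP κ K S M t + (2 * K) * (inorder t).length * across κ P := by
  induction h with
  | refl t => intro _ _ t _ _; simp [across]
  | @rot a b P t u v h _ ih =>
    intro hb hB Z hZ hi
    have h3 := rot_pot (κ := κ) (S := S) hK hK0 h hb hB hi
    have h4 := ih (by rw [IsBST, rot_inorder h]; exact hb) (by rw [rot_inorder h]; exact hB) Z hZ
      (by rw [hi, rot_inorder h])
    have h5 : across κ ((a, b) :: P) = (if κ a ≠ κ b then 1 else 0) + across κ P := by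
      unfold across
      rw [List.filter_cons]
      split_ifs <;> simp_all <;> omega
    rw [h5]
    push_cast at h3 h4 ⊢
    linarith
  | root h _ ih =>
    intro hb hB Z hZ hi
    have h3 := root_move_pot (κ := κ) (S := S) hK h hb hB hZ hi
    have h1 := (rootMove_eq h hb).2
    have h4 := ih (by rw [IsBST, h1]; exact hb) (by rw [h1]; exact hB) Z hZ (by rw [hi, h1])
    linarith

theorem mem_sub {x : ℕ} : ∀ {t : BinaryTree ℕ}, IsBST t → x ∈ inorder t → x ∈ sub x t
  | .nil, _, h => by simp [inorder] at h
  | .node a l r, hb, h => by
      obtain ⟨hl, hr, h1, h2⟩ := bst_node hb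
      rcases lt_trichotomy x a with h3 | h3 | h3
      · have e : x ≠ a := by omega
        simp only [sub, e, h3, if_true, if_false]
        exact mem_sub hl (mem_left_of_lt hb h h3)
      · subst h3
        simp [sub, inorder]
      · have e : x ≠ a := by omega
        have e' : ¬ x < a := by omega
        simp only [sub, e, e', if_false]
        exact mem_sub hr (mem_right_of_lt hb h h3)

theorem main_ind (hs : 1 ≤ s) (hK : K = 2 + Real.logb 2 s) {U : BinaryTree ℕ} {Y : List ℕ}
    {P : List (ℕ × ℕ)} {c : ℕ} (hE : Exec U Y P c) : IsBST U → Bdd κ s (inorder U) →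
    (∀ x ∈ Y, S x ∧ x ∈ inorder U) → ∀ Z : BinaryTree ℕ, inorder Z = inorder U → Closed S Z →
    (splayCost Y Z : ℝ) ≤ PP κ K S U Z + (6 + 3 * Real.logb 2 s) * c
      + (4 + 2 * Real.logb 2 s) * (inorder U).length * across κ P := by
  have hs' : (1 : ℝ) ≤ s := by exact_mod_cast hs
  have hL : 0 ≤ Real.logb 2 (s : ℝ) := Real.logb_nonneg (by norm_num) hs'
  have hK0 : 0 ≤ K := by linarith
  induction hE with
  | nil T =>
    intro hb hB hY Z hZ hc
    have := rpot_nonneg (c := fun v => lev κ v 0 T) (κ := κ) hK hs (S := S) Z
    simp [splayCost, across, PP]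
    exact this
  | @cons T T' x X P Q c h1 h2 ih =>
    intro hb hB hY Z hZ hc
    obtain ⟨hSx, hxT⟩ := hY x (by simp)
    have hin' := restr_inorder h1 hb
    have hZb : IsBST Z := by rw [IsBST, hZ]; exact hb
    have hxZ : x ∈ inorder Z := by rw [hZ]; exact hxT
    obtain ⟨a0, a1, a2, a3⟩ := splay_rank (KL := inorder T) (F := fun v => K * lev κ v 0 T)
      (rank_rk hK (uniq_lev (κ := κ) hb 0) hB) hSx hZb hxZ hc (by rw [hZ])
    have b1 : rk (fun v => lev κ v 0 T) κ K (inorder Z)
        ≤ -K * mn (fun v => lev κ v 0 T) (inorder T) + Real.logb 2 s := by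
      rw [hZ]
      have := lg_zc_le (c := fun v => lev κ v 0 T) (uniq_lev (κ := κ) hb 0) hB
        (List.infix_refl _) (List.ne_nil_of_mem hxT)
      unfold rk
      linarith
    have hxs := mem_sub hZb hxZ
    have b2 := rk_ge (c := fun v => lev κ v 0 T) (κ := κ) (K := K) (List.ne_nil_of_mem hxs)
    have b3 : (mn (fun v => lev κ v 0 T) (sub x Z) : ℝ) ≤ lev κ x 0 T := by
      exact_mod_cast mn_le (c := fun v => lev κ v 0 T) hxs
    have b4 : (lev κ x 0 T : ℝ) ≤ mn (fun v => lev κ v 0 T) (inorder T) + depth x T := by
      exact_mod_cast lev_le_mn (κ := κ) (q := 0) hxT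
    have b5 : K * mn (fun v => lev κ v 0 T) (sub x Z)
        ≤ K * (mn (fun v => lev κ v 0 T) (inorder T) + depth x T) :=
      mul_le_mul_of_nonneg_left (b3.trans b4) hK0
    have b6 : rk (fun v => lev κ v 0 T) κ K (inorder Z) - rk (fun v => lev κ v 0 T) κ K (sub x Z)
        ≤ K * depth x T + Real.logb 2 s := by
      linarith
    have a5 := ih (by rw [IsBST, hin']; exact hb) (by rw [hin']; exact hB)
      (fun y hy => by rw [hin']; exact hY y (by simp [hy])) (splay x Z) (by rw [a2, hZ, hin']) a1
    have a6 := restr_pot (κ := κ) (S := S) hK hK0 h1 hb hB (splay x Z) a0 (by rw [a2, hZ])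
    have hn : (inorder (splay x Z)).length = (inorder T).length := by rw [a2, hZ]
    rw [hin'] at a5
    rw [hn] at a6
    have a7 : (0 : ℝ) ≤ (6 + 3 * Real.logb 2 s) * P.length := by positivity
    have a8 : 2 * K * (inorder T).length * across κ P
      = (4 + 2 * Real.logb 2 s) * (inorder T).length * across κ P := by rw [hK]; ring
    have a9 : K * depth x T = (2 + Real.logb 2 s) * depth x T := by rw [hK]
    rw [a8] at a6
    rw [a9] at b6
    rw [across_append]
    simp only [splayCost]
    unfold PP at a5 a6 ⊢
    push_cast at a5 a6 ⊢
    have e1 : ((6 : ℝ) + 3 * Real.logb 2 s) * (1 + P.length + depth x T + c)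
      = (6 + 3 * Real.logb 2 s) + (6 + 3 * Real.logb 2 s) * P.length
        + (6 + 3 * Real.logb 2 s) * depth x T + (6 + 3 * Real.logb 2 s) * c := by ring
    have e2 : (3 : ℝ) * ((2 + Real.logb 2 s) * depth x T + Real.logb 2 s)
      = (6 + 3 * Real.logb 2 s) * depth x T + 3 * Real.logb 2 s := by ring
    have e3 : ((4 : ℝ) + 2 * Real.logb 2 s) * (inorder T).length * (across κ P + across κ Q)
      = (4 + 2 * Real.logb 2 s) * (inorder T).length * across κ P
        + (4 + 2 * Real.logb 2 s) * (inorder T).length * across κ Q := by ring
    rw [e1, e3]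
    linarith

/-- Clusters of bounded size. -/
theorem clusters {T : BinaryTree ℕ} {X : List ℕ} {P : List (ℕ × ℕ)} {c : ℕ} (hT : IsBST T)
    (hX : ∀ x ∈ X, x ∈ inorder T) (hE : Exec T X P c)
    (hB : ∀ q, ((inorder T).filter (fun y => κ y = q)).length ≤ s) :
    (splayCost X T : ℝ) ≤ (6 + 4 * Real.logb 2 s) * c
      + (4 + 2 * Real.logb 2 s) * (inorder T).length * across κ P := by
  have hB' : Bdd κ s (inorder T) := hB
  rcases Nat.eq_zero_or_pos s with hs | hs
  · have hX0 : X = [] := by
      cases X with
      | nil => rfl
      | cons x X =>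
        exfalso
        have h1 := hB (κ x)
        have h2 := hX x (by simp)
        have h3 : x ∈ (inorder T).filter (fun y => κ y = κ x) := by simp [h2]
        have h4 := List.length_pos_of_mem h3
        omega
    subst hX0 hs
    simp only [splayCost]
    simp
    positivity
  · have hs' : (1 : ℝ) ≤ s := by exact_mod_cast hs
    have hL : 0 ≤ Real.logb 2 (s : ℝ) := Real.logb_nonneg (by norm_num) hs'
    have h1 := main_ind (κ := κ) (K := 2 + Real.logb 2 s) hs rfl (S := fun v => OnPath X v T) hE hT
      hB' (fun x hx => ⟨onPath_self hx hT (hX x hx), hX x hx⟩) T rfl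
      (closed_onPath hT (fun v _ => Iff.rfl))
    have h2 := pot_init (κ := κ) (K := 2 + Real.logb 2 s) (S := fun v => OnPath X v T) hs
      (c := fun v => lev κ v 0 T) T X 0 0 hT (fun v _ => by simp) (fun v _ => Iff.rfl) hB'
      (uniq_lev (κ := κ) hT 0)
    have h3 : (steiner X T : ℝ) ≤ c := by exact_mod_cast steiner_le_rcost hE hT
    unfold PP at h1
    nlinarith

end Main

end Pool.Agent.SplRM
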