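import Pool.Agent.SplRM.Base

set_option autoImplicit false

/-!
# The access lemma for abstract rank functions on key intervals
-/

namespace Pool.Agent.SplRM

open BinaryTree Classical

/-- Abstract rank functions on the intervals of the key list `KL`. -/
structure Rank (KL : List ℕ) (R : List ℕ → ℝ) : Prop where
  mono : ∀ L M : List ℕ, L ≠ [] → L <:+: M → M <:+: KL → R L ≤ R M
  disj : ∀ (L : List ℕ) (p : ℕ) (M : List ℕ), L ≠ [] → M ≠ [] → (L ++ p :: M) <:+: KL →
    R L + R M + 2 ≤ 2 * R (L ++ p :: M)

/-- The potential. -/
noncomputable def rpot (S : ℕ → Prop) (R : List ℕ → ℝ) (F : ℕ → ℝ) : BinaryTree ℕ → ℝ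
  | .nil => 0
  | .node a l r => rpot S R F l + (if S a then R (inorder (.node a l r)) + F a else 0) + rpot S R F r

/-- The keys of the subtree rooted at `x`. -/
def sub (x : ℕ) : BinaryTree ℕ → List ℕ
  | .nil => []
  | .node a l r => if x = a then inorder (.node a l r) else if x < a then sub x l else sub x r

variable {KL : List ℕ} {R : List ℕ → ℝ} {S : ℕ → Prop} {F : ℕ → ℝ} {x : ℕ}

theorem infix_left {a : ℕ} {l r : BinaryTree ℕ} (h : inorder (.node a l r) <:+: KL) :
    inorder l <:+: KL :=
  (List.infix_append' [] (inorder l) (a :: inorder r)).trans (by simpa [inorder] using h)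

theorem infix_right {a : ℕ} {l r : BinaryTree ℕ} (h : inorder (.node a l r) <:+: KL) :
    inorder r <:+: KL := by
  refine List.IsInfix.trans ?_ h
  exact ⟨inorder l ++ [a], [], by simp [inorder]⟩

theorem dbl_rpot {t t' : BinaryTree ℕ} (hR : Rank KL R) (h : Dbl x t t') (hS : S x)
    (hc : Closed S t) (hK : inorder t <:+: KL) :
    2 + rpot S R F t' ≤ rpot S R F t + 3 * (R (sub x t') - R (sub x t)) := by
  induction h with
  | ll p g A B C D h1 h2 =>
    have hg : S g := closed_of hc (k := x) (by simp [inorder]) hS rfl
    have hp : S p := closed_of hc.2.1 (k := x) (by simp [inorder]) hS rfl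
    have e1 : x ≠ g := by omega
    have e2 : x ≠ p := by omega
    simp only [inorder, List.append_assoc, List.cons_append] at hK
    have d := hR.disj (inorder A ++ x :: inorder B) p (inorder C ++ g :: inorder D) (by simp)
      (by simp) (by simpa [List.append_assoc] using hK)
    have m1 := hR.mono (inorder B ++ p :: (inorder C ++ g :: inorder D))
      (inorder A ++ x :: (inorder B ++ p :: (inorder C ++ g :: inorder D))) (by simp)
      ⟨inorder A ++ [x], [], by simp⟩ hK
    have m2 := hR.mono (inorder A ++ x :: inorder B)
      (inorder A ++ x :: (inorder B ++ p :: inorder C)) (by simp)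
      ⟨[], p :: inorder C, by simp⟩
      (List.IsInfix.trans ⟨[], g :: inorder D, by simp⟩ hK)
    simp only [rpot, sub, inorder, e1, e2, h1, h2, hS, hp, hg, if_true, if_false,
      List.append_assoc, List.cons_append] at d ⊢
    linarith
  | rr p g A B C D h1 h2 =>
    have hg : S g := closed_of hc (k := x) (by simp [inorder]) hS rfl
    have hp : S p := closed_of hc.2.2 (k := x) (by simp [inorder]) hS rfl
    have e1 : x ≠ g := by omega
    have e2 : x ≠ p := by omega
    have e3 : ¬ x < g := by omega
    have e4 : ¬ x < p := by omega
    simp only [inorder, List.append_assoc, List.cons_append] at hK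
    have d := hR.disj (inorder D ++ g :: inorder C) p (inorder B ++ x :: inorder A) (by simp)
      (by simp) (by simpa [List.append_assoc] using hK)
    have m1 := hR.mono (inorder D ++ g :: (inorder C ++ p :: inorder B))
      (inorder D ++ g :: (inorder C ++ p :: (inorder B ++ x :: inorder A))) (by simp)
      ⟨[], x :: inorder A, by simp⟩ hK
    have m2 := hR.mono (inorder B ++ x :: inorder A)
      (inorder C ++ p :: (inorder B ++ x :: inorder A)) (by simp)
      ⟨inorder C ++ [p], [], by simp⟩
      (List.IsInfix.trans ⟨inorder D ++ [g], [], by simp⟩ hK)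
    simp only [rpot, sub, inorder, e1, e2, e3, e4, hS, hp, hg, if_true, if_false,
      List.append_assoc, List.cons_append] at d ⊢
    linarith
  | lr p g A B C D h1 h2 =>
    have hg : S g := closed_of hc (k := x) (by simp [inorder]) hS rfl
    have hp : S p := closed_of hc.2.1 (k := x) (by simp [inorder]) hS rfl
    have e1 : x ≠ g := by omega
    have e2 : x ≠ p := by omega
    have e3 : ¬ x < p := by omega
    simp only [inorder, List.append_assoc, List.cons_append] at hK
    have d := hR.disj (inorder A ++ p :: inorder B) x (inorder C ++ g :: inorder D) (by simp)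
      (by simp) (by simpa [List.append_assoc] using hK)
    have m1 := hR.mono (inorder B ++ x :: inorder C)
      (inorder A ++ p :: (inorder B ++ x :: inorder C)) (by simp)
      ⟨inorder A ++ [p], [], by simp⟩
      (List.IsInfix.trans ⟨[], g :: inorder D, by simp⟩ hK)
    have m2 := hR.mono (inorder B ++ x :: inorder C)
      (inorder A ++ p :: (inorder B ++ x :: (inorder C ++ g :: inorder D))) (by simp)
      ⟨inorder A ++ [p], g :: inorder D, by simp⟩ hK
    simp only [rpot, sub, inorder, e1, e2, e3, h2, hS, hp, hg, if_true, if_false,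
      List.append_assoc, List.cons_append] at d ⊢
    linarith
  | rl p g A B C D h1 h2 =>
    have hg : S g := closed_of hc (k := x) (by simp [inorder]) hS rfl
    have hp : S p := closed_of hc.2.2 (k := x) (by simp [inorder]) hS rfl
    have e1 : x ≠ g := by omega
    have e2 : x ≠ p := by omega
    have e3 : ¬ x < g := by omega
    simp only [inorder, List.append_assoc, List.cons_append] at hK
    have d := hR.disj (inorder D ++ g :: inorder C) x (inorder B ++ p :: inorder A) (by simp)
      (by simp) (by simpa [List.append_assoc] using hK)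
    have m1 := hR.mono (inorder C ++ x :: inorder B)
      (inorder C ++ x :: (inorder B ++ p :: inorder A)) (by simp)
      ⟨[], p :: inorder A, by simp⟩
      (List.IsInfix.trans ⟨inorder D ++ [g], [], by simp⟩ hK)
    have m2 := hR.mono (inorder C ++ x :: inorder B)
      (inorder D ++ g :: (inorder C ++ x :: (inorder B ++ p :: inorder A))) (by simp)
      ⟨inorder D ++ [g], p :: inorder A, by simp⟩ hK
    simp only [rpot, sub, inorder, e1, e2, e3, h1, hS, hp, hg, if_true, if_false,
      List.append_assoc, List.cons_append] at d ⊢
    linarith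
  | inL a r h1 h2 ih =>
    have e1 : x ≠ a := by omega
    have := ih hc.2.1 (infix_left hK)
    simp only [rpot, sub, inorder, e1, h1, if_true, if_false, dbl_inorder h2]
    linarith
  | inR a l h1 h2 ih =>
    have e1 : x ≠ a := by omega
    have e2 : ¬ x < a := by omega
    have := ih hc.2.2 (infix_right hK)
    simp only [rpot, sub, inorder, e1, e2, if_false, dbl_inorder h2]
    linarith

theorem zig_rpot {t t' : BinaryTree ℕ} (hR : Rank KL R) (h : Zig x t t') (hS : S x)
    (hc : Closed S t) (hK : inorder t <:+: KL) :
    rpot S R F t' ≤ rpot S R F t + 3 * (R (inorder t) - R (sub x t)) := by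
  cases h with
  | left y A B C h1 =>
    have hy : S y := closed_of hc (k := x) (by simp [inorder]) hS rfl
    have e1 : x ≠ y := by omega
    simp only [inorder, List.append_assoc, List.cons_append] at hK
    have m1 := hR.mono (inorder B ++ y :: inorder C)
      (inorder A ++ x :: (inorder B ++ y :: inorder C)) (by simp)
      ⟨inorder A ++ [x], [], by simp⟩ hK
    have m2 := hR.mono (inorder A ++ x :: inorder B)
      (inorder A ++ x :: (inorder B ++ y :: inorder C)) (by simp)
      ⟨[], y :: inorder C, by simp⟩ hK
    simp only [rpot, sub, inorder, e1, h1, hS, hy, if_true, if_false,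
      List.append_assoc, List.cons_append]
    linarith
  | right y A B C h1 =>
    have hy : S y := closed_of hc (k := x) (by simp [inorder]) hS rfl
    have e1 : x ≠ y := by omega
    have e3 : ¬ x < y := by omega
    simp only [inorder, List.append_assoc, List.cons_append] at hK
    have m1 := hR.mono (inorder C ++ y :: inorder B)
      (inorder C ++ y :: (inorder B ++ x :: inorder A)) (by simp)
      ⟨[], x :: inorder A, by simp⟩ hK
    have m2 := hR.mono (inorder B ++ x :: inorder A)
      (inorder C ++ y :: (inorder B ++ x :: inorder A)) (by simp)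
      ⟨inorder C ++ [y], [], by simp⟩ hK
    simp only [rpot, sub, inorder, e1, e3, hS, hy, if_true, if_false,
      List.append_assoc, List.cons_append]
    linarith

theorem sub_root {t : BinaryTree ℕ} (h : At x 0 t) : sub x t = inorder t := by
  cases t with
  | nil => simp [At] at h
  | node a l r =>
    simp only [At] at h
    simp [sub, h]

/-- The access lemma. -/
theorem access_rank (hR : Rank KL R) (hS : S x) : ∀ {d : ℕ} {t : BinaryTree ℕ}, At x d t →
    Closed S t → inorder t <:+: KL → ∀ n, d ≤ 2 * n →
    At x 0 ((splayStep x)^[n] t) ∧ Closed S ((splayStep x)^[n] t) ∧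
      inorder ((splayStep x)^[n] t) = inorder t ∧
      (d : ℝ) + rpot S R F ((splayStep x)^[n] t)
        ≤ rpot S R F t + 1 + 3 * (R (inorder t) - R (sub x t))
  | 0, t, h, hc, hK, n, _ => by
      rw [iter_root h, sub_root h]
      refine ⟨h, hc, rfl, ?_⟩
      push_cast
      linarith
  | 1, t, h, hc, hK, n, hn => by
      obtain ⟨m, rfl⟩ : ∃ m, n = m + 1 := ⟨n - 1, by omega⟩
      obtain ⟨hz, h0⟩ := zig_of_at h
      rw [Function.iterate_succ_apply, iter_root h0]
      refine ⟨h0, zig_closed hz hS hc, zig_inorder hz, ?_⟩
      have := zig_rpot (F := F) hR hz hS hc hK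
      push_cast
      linarith
  | d + 2, t, h, hc, hK, n, hn => by
      obtain ⟨m, rfl⟩ : ∃ m, n = m + 1 := ⟨n - 1, by omega⟩
      obtain ⟨hz, h0⟩ := dbl_of_at h
      rw [Function.iterate_succ_apply]
      obtain ⟨i0, i1, i2, i3⟩ := access_rank hR hS h0 (dbl_closed hz hS hc)
        (by rw [dbl_inorder hz]; exact hK) m (by omega)
      refine ⟨i0, i1, i2.trans (dbl_inorder hz), ?_⟩
      have := dbl_rpot (F := F) hR hz hS hc hK
      rw [dbl_inorder hz] at i3
      push_cast
      linarith

/-- The amortized cost of splaying one key. -/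
theorem splay_rank (hR : Rank KL R) (hS : S x) {t : BinaryTree ℕ} (hb : IsBST t)
    (hm : x ∈ inorder t) (hc : Closed S t) (hK : inorder t <:+: KL) :
    At x 0 (splay x t) ∧ Closed S (splay x t) ∧ inorder (splay x t) = inorder t ∧
      (depth x t : ℝ) + rpot S R F (splay x t)
        ≤ rpot S R F t + 1 + 3 * (R (inorder t) - R (sub x t)) :=
  access_rank hR hS (at_of_mem hb hm) hc hK (depth x t) (by omega)

theorem rpot_le {R' : List ℕ → ℝ} {F' : ℕ → ℝ} {δ : ℝ} (hδ : 0 ≤ δ) : ∀ t : BinaryTree ℕ,
    (∀ v L, v ∈ L → L <:+: inorder t → R' L + F' v ≤ R L + F v + δ) →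
    rpot S R' F' t ≤ rpot S R F t + δ * (inorder t).length
  | .nil, _ => by simp [rpot, inorder]
  | .node a l r, h => by
      have h1 := rpot_le hδ l (fun v L hv hL => h v L hv (infix_left (List.IsInfix.trans
        (List.infix_refl _) (List.infix_refl _)) |> fun h' => hL.trans h'))
      have h2 := rpot_le hδ r (fun v L hv hL => h v L hv (infix_right (List.infix_refl _)
        |> fun h' => hL.trans h'))
      have h3 := h a (inorder (.node a l r)) (by simp [inorder]) (List.infix_refl _)
      have h4 : ((inorder (.node a l r)).length : ℝ)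
          = (inorder l).length + (inorder r).length + 1 := by
        simp only [inorder, List.length_append, List.length_cons]
        push_cast
        ring
      rw [h4]
      simp only [rpot]
      split_ifs with hS
      · linarith
      · linarith

end Pool.Agent.SplRM
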