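import Pool.Agent.SplRM.Lev

set_option autoImplicit false

/-!
# Root moves do not increase the potential
-/

namespace Pool.Agent.SplRM

open BinaryTree Classical

/-- The keys below `x`, arranged as after a root move of `x`. -/
def lft (x : ℕ) : BinaryTree ℕ → BinaryTree ℕ
  | .nil => .nil
  | .node a l r => if x = a then l else if x < a then lft x l else .node a l (lft x r)

/-- The keys above `x`, arranged as after a root move of `x`. -/
def rgt (x : ℕ) : BinaryTree ℕ → BinaryTree ℕ
  | .nil => .nil
  | .node a l r => if x = a then r else if x < a then .node a (rgt x l) r else rgt x r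

theorem rot_mem {a b : ℕ} {t t' : BinaryTree ℕ} (h : Rot a b t t') : b ∈ inorder t := by
  induction h with
  | atLeftChild A B C => simp [inorder]
  | atRightChild A B C => simp [inorder]
  | inLeft c r h ih => simp [inorder, ih]
  | inRight c l h ih => simp [inorder, ih]

theorem rot_split {a x : ℕ} {t t' : BinaryTree ℕ} (h : Rot a x t t') (hb : IsBST t) :
    lft x t' = lft x t ∧ rgt x t' = rgt x t := by
  induction h with
  | atLeftChild A B C =>
    have hxa : x < a := (bst_node hb).2.2.1 x (by simp [inorder])
    have h1 : x ≠ a := by omega
    simp [lft, rgt, h1, hxa]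
  | atRightChild A B C =>
    have hxa : a < x := (bst_node hb).2.2.2 x (by simp [inorder])
    have h1 : x ≠ a := by omega
    have h2 : ¬ x < a := by omega
    simp [lft, rgt, h1, h2]
  | inLeft c r h ih =>
    obtain ⟨i1, i2⟩ := ih (bst_node hb).1
    have hxc : x < c := (bst_node hb).2.2.1 x (rot_mem h)
    have h1 : x ≠ c := by omega
    simp [lft, rgt, h1, hxc, i1, i2]
  | inRight c l h ih =>
    obtain ⟨i1, i2⟩ := ih (bst_node hb).2.1
    have hxc : c < x := (bst_node hb).2.2.2 x (rot_mem h)
    have h1 : x ≠ c := by omega
    have h2 : ¬ x < c := by omega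
    simp [lft, rgt, h1, h2, i1, i2]

theorem rootMove_eq {x : ℕ} {t t' : BinaryTree ℕ} (h : RootMove x t t') :
    IsBST t → t' = .node x (lft x t) (rgt x t) ∧ inorder t' = inorder t := by
  induction h with
  | done l r => intro _; simp [lft, rgt]
  | @step a t u v h _ ih =>
    intro hb
    have hb' : IsBST u := by rw [IsBST, rot_inorder h]; exact hb
    obtain ⟨i1, i2⟩ := ih hb'
    obtain ⟨i3, i4⟩ := rot_split h hb
    rw [i3, i4] at i1
    exact ⟨i1, i2.trans (rot_inorder h)⟩

variable {κ : ℕ → ℕ}

theorem lev_const (v k p q : ℕ) (t : BinaryTree ℕ) :
    lev κ v p t + lev κ k q t = lev κ k p t + lev κ v q t := by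
  cases t with
  | nil => simp [lev]
  | node a l r => simp only [lev]; omega

theorem mem_left_of_lt {v a : ℕ} {l r : BinaryTree ℕ} (hb : IsBST (.node a l r))
    (hv : v ∈ inorder (.node a l r)) (h : v < a) : v ∈ inorder l := by
  obtain ⟨-, -, h1, h2⟩ := bst_node hb
  simp only [inorder, List.mem_append, List.mem_cons] at hv
  rcases hv with hv | hv | hv
  · exact hv
  · omega
  · have := h2 v hv; omega

theorem mem_right_of_lt {v a : ℕ} {l r : BinaryTree ℕ} (hb : IsBST (.node a l r))
    (hv : v ∈ inorder (.node a l r)) (h : a < v) : v ∈ inorder r := by
  obtain ⟨-, -, h1, h2⟩ := bst_node hb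
  simp only [inorder, List.mem_append, List.mem_cons] at hv
  rcases hv with hv | hv | hv
  · have := h1 v hv; omega
  · omega
  · exact hv

theorem lev_left {v a q : ℕ} {l r : BinaryTree ℕ} (h : v < a) :
    lev κ v q (.node a l r) = (if κ a = q then 0 else 1) + lev κ v (κ a) l := by
  have h4 : v ≠ a := by omega
  simp only [lev, h, h4, if_true, if_false]

theorem lev_right {v a q : ℕ} {l r : BinaryTree ℕ} (h : a < v) :
    lev κ v q (.node a l r) = (if κ a = q then 0 else 1) + lev κ v (κ a) r := by
  have h4 : v ≠ a := by omega
  have h5 : ¬ v < a := by omega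
  simp only [lev, h4, h5, if_false]

theorem lev_self {a q : ℕ} {l r : BinaryTree ℕ} :
    lev κ a q (.node a l r) = (if κ a = q then 0 else 1) := by
  simp [lev]

/-- The level of a key in a child, seen from above. -/
theorem lev_parent (v p q : ℕ) (t : BinaryTree ℕ) :
    lev κ v p t ≤ (if q = p then 0 else 1) + lev κ v q t := by
  cases t with
  | nil => simp [lev]
  | node a l r =>
    simp only [lev]
    split_ifs <;> omega

theorem lft_le {x v : ℕ} (hvx : v < x) : ∀ {t : BinaryTree ℕ} {q : ℕ}, IsBST t → v ∈ inorder t →
    lev κ v q (lft x t) ≤ lev κ v q t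
  | .nil, q, _, h => by simp [inorder] at h
  | .node a l r, q, hb, hv => by
      obtain ⟨hl, hr, h1, h2⟩ := bst_node hb
      rcases lt_trichotomy x a with h | h | h
      · have e1 : x ≠ a := by omega
        have hva : v < a := by omega
        have i := lft_le hvx hl (mem_left_of_lt hb hv hva) (q := q)
        have j := lev_parent (κ := κ) v q (κ a) l
        simp only [lft, e1, h, if_true, if_false]
        rw [lev_left hva]
        omega
      · subst h
        have j := lev_parent (κ := κ) v q (κ x) l
        simp only [lft, if_true]
        rw [lev_left hvx]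
        omega
      · have e1 : x ≠ a := by omega
        have e2 : ¬ x < a := by omega
        simp only [lft, e1, e2, if_false]
        rcases lt_trichotomy v a with h' | h' | h'
        · rw [lev_left h', lev_left h']
        · subst h'
          rw [lev_self, lev_self]
        · rw [lev_right h', lev_right h']
          have i := lft_le hvx hr (mem_right_of_lt hb hv h') (q := κ a)
          omega

theorem rgt_le {x v : ℕ} (hvx : x < v) : ∀ {t : BinaryTree ℕ} {q : ℕ}, IsBST t → v ∈ inorder t →
    lev κ v q (rgt x t) ≤ lev κ v q t
  | .nil, q, _, h => by simp [inorder] at h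
  | .node a l r, q, hb, hv => by
      obtain ⟨hl, hr, h1, h2⟩ := bst_node hb
      rcases lt_trichotomy x a with h | h | h
      · have e1 : x ≠ a := by omega
        simp only [rgt, e1, h, if_true, if_false]
        rcases lt_trichotomy v a with h' | h' | h'
        · rw [lev_left h', lev_left h']
          have i := rgt_le hvx hl (mem_left_of_lt hb hv h') (q := κ a)
          omega
        · subst h'
          rw [lev_self, lev_self]
        · rw [lev_right h', lev_right h']
      · subst h
        have j := lev_parent (κ := κ) v q (κ x) r
        simp only [rgt, if_true]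
        rw [lev_right hvx]
        omega
      · have e1 : x ≠ a := by omega
        have e2 : ¬ x < a := by omega
        have hva : a < v := by omega
        have i := rgt_le hvx hr (mem_right_of_lt hb hv hva) (q := q)
        have j := lev_parent (κ := κ) v q (κ a) r
        simp only [rgt, e1, e2, if_false]
        rw [lev_right hva]
        omega

/-- The shifts of the levels are monotone (left side). -/
theorem lft_shift {x v k : ℕ} (hvx : v < x) (hkx : k < x) : ∀ {t : BinaryTree ℕ} (p q : ℕ),
    IsBST t → v ∈ inorder t → k ∈ inorder t → ∃ j ∈ inorder t, j < x ∧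
      ((v ≤ j ∧ j ≤ k) ∨ (k ≤ j ∧ j ≤ v)) ∧ lev κ j p (lft x t) ≤ lev κ k p (lft x t) ∧
      lev κ v p (lft x t) + lev κ j q t ≤ lev κ j p (lft x t) + lev κ v q t
  | .nil, p, q, _, h, _ => by simp [inorder] at h
  | .node a l r, p, q, hb, hv, hk => by
      obtain ⟨hl, hr, h1, h2⟩ := bst_node hb
      rcases lt_trichotomy x a with h | h | h
      · have e1 : x ≠ a := by omega
        have hva : v < a := by omega
        have hka : k < a := by omega
        obtain ⟨j, hj, i1, i2, i3, i4⟩ := lft_shift hvx hkx p (κ a) hl
          (mem_left_of_lt hb hv hva) (mem_left_of_lt hb hk hka)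
        have hja := h1 j hj
        refine ⟨j, by simp [inorder, hj], i1, i2, ?_⟩
        simp only [lft, e1, h, if_true, if_false]
        rw [lev_left hva, lev_left hja]
        exact ⟨i3, by omega⟩
      · subst h
        refine ⟨k, hk, hkx, by omega, le_refl _, ?_⟩
        simp only [lft, if_true]
        rw [lev_left hvx, lev_left hkx]
        have := lev_const (κ := κ) v k p (κ x) l
        omega
      · have e1 : x ≠ a := by omega
        have e2 : ¬ x < a := by omega
        simp only [lft, e1, e2, if_false]
        by_cases hva : v ≤ a
        · by_cases hka : k ≤ a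
          · refine ⟨k, hk, hkx, by omega, le_refl _, ?_⟩
            rcases hva.lt_or_eq with h3 | h3
            · rcases hka.lt_or_eq with h4 | h4
              · rw [lev_left h3, lev_left h3, lev_left h4, lev_left h4]
                omega
              · subst h4
                rw [lev_left h3, lev_left h3, lev_self, lev_self]
                omega
            · subst h3
              rcases hka.lt_or_eq with h4 | h4
              · rw [lev_left h4, lev_left h4, lev_self, lev_self]
                omega
              · subst h4
                omega
          · refine ⟨a, by simp [inorder], h, by omega, ?_, ?_⟩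
            · rw [lev_self]
              exact lev_ge_root k
            · rcases hva.lt_or_eq with h3 | h3
              · rw [lev_left h3, lev_left h3, lev_self, lev_self]
                omega
              · subst h3
                rw [lev_self, lev_self]
        · have hav : a < v := by omega
          by_cases hka : k ≤ a
          · refine ⟨k, hk, hkx, by omega, le_refl _, ?_⟩
            have hB := lft_le (κ := κ) hvx hr (mem_right_of_lt hb hv hav) (q := κ a)
            rcases hka.lt_or_eq with h4 | h4
            · rw [lev_right hav, lev_right hav, lev_left h4, lev_left h4]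
              omega
            · subst h4
              rw [lev_right hav, lev_right hav, lev_self, lev_self]
              omega
          · have hak : a < k := by omega
            obtain ⟨j, hj, i1, i2, i3, i4⟩ := lft_shift hvx hkx (κ a) (κ a) hr
              (mem_right_of_lt hb hv hav) (mem_right_of_lt hb hk hak)
            have hja := h2 j hj
            refine ⟨j, by simp [inorder, hj], i1, i2, ?_, ?_⟩
            · rw [lev_right hja, lev_right hak]
              omega
            · rw [lev_right hav, lev_right hja, lev_right hja, lev_right hav]
              omega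

/-- The shifts of the levels are monotone (right side). -/
theorem rgt_shift {x v k : ℕ} (hvx : x < v) (hkx : x < k) : ∀ {t : BinaryTree ℕ} (p q : ℕ),
    IsBST t → v ∈ inorder t → k ∈ inorder t → ∃ j ∈ inorder t, x < j ∧
      ((v ≤ j ∧ j ≤ k) ∨ (k ≤ j ∧ j ≤ v)) ∧ lev κ j p (rgt x t) ≤ lev κ k p (rgt x t) ∧
      lev κ v p (rgt x t) + lev κ j q t ≤ lev κ j p (rgt x t) + lev κ v q t
  | .nil, p, q, _, h, _ => by simp [inorder] at h
  | .node a l r, p, q, hb, hv, hk => by
      obtain ⟨hl, hr, h1, h2⟩ := bst_node hb
      rcases lt_trichotomy x a with h | h | h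
      · have e1 : x ≠ a := by omega
        simp only [rgt, e1, h, if_true, if_false]
        by_cases hva : a ≤ v
        · by_cases hka : a ≤ k
          · refine ⟨k, hk, hkx, by omega, le_refl _, ?_⟩
            rcases hva.lt_or_eq with h3 | h3
            · rcases hka.lt_or_eq with h4 | h4
              · rw [lev_right h3, lev_right h3, lev_right h4, lev_right h4]
                omega
              · subst h4
                rw [lev_right h3, lev_right h3, lev_self, lev_self]
                omega
            · subst h3
              rcases hka.lt_or_eq with h4 | h4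
              · rw [lev_right h4, lev_right h4, lev_self, lev_self]
                omega
              · subst h4
                omega
          · refine ⟨a, by simp [inorder], h, by omega, ?_, ?_⟩
            · rw [lev_self]
              exact lev_ge_root k
            · rcases hva.lt_or_eq with h3 | h3
              · rw [lev_right h3, lev_right h3, lev_self, lev_self]
                omega
              · subst h3
                rw [lev_self, lev_self]
        · have hav : v < a := by omega
          by_cases hka : a ≤ k
          · refine ⟨k, hk, hkx, by omega, le_refl _, ?_⟩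
            have hB := rgt_le (κ := κ) hvx hl (mem_left_of_lt hb hv hav) (q := κ a)
            rcases hka.lt_or_eq with h4 | h4
            · rw [lev_left hav, lev_left hav, lev_right h4, lev_right h4]
              omega
            · subst h4
              rw [lev_left hav, lev_left hav, lev_self, lev_self]
              omega
          · have hak : k < a := by omega
            obtain ⟨j, hj, i1, i2, i3, i4⟩ := rgt_shift hvx hkx (κ a) (κ a) hl
              (mem_left_of_lt hb hv hav) (mem_left_of_lt hb hk hak)
            have hja := h1 j hj
            refine ⟨j, by simp [inorder, hj], i1, i2, ?_, ?_⟩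
            · rw [lev_left hja, lev_left hak]
              omega
            · rw [lev_left hav, lev_left hja, lev_left hja, lev_left hav]
              omega
      · subst h
        refine ⟨k, hk, hkx, by omega, le_refl _, ?_⟩
        simp only [rgt, if_true]
        rw [lev_right hvx, lev_right hkx]
        have := lev_const (κ := κ) v k p (κ x) r
        omega
      · have e1 : x ≠ a := by omega
        have e2 : ¬ x < a := by omega
        have hva : a < v := by omega
        have hka : a < k := by omega
        obtain ⟨j, hj, i1, i2, i3, i4⟩ := rgt_shift hvx hkx p (κ a) hr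
          (mem_right_of_lt hb hv hva) (mem_right_of_lt hb hk hka)
        have hja := h2 j hj
        refine ⟨j, by simp [inorder, hj], i1, i2, ?_⟩
        simp only [rgt, e1, e2, if_false]
        rw [lev_right hva, lev_right hja]
        exact ⟨i3, by omega⟩

section Pot

variable {s : ℕ} {K : ℝ} {S : ℕ → Prop}

/-- The potential of the splay tree `t` for the tree `M` of the execution. -/
noncomputable def PP (κ : ℕ → ℕ) (K : ℝ) (S : ℕ → Prop) (M t : BinaryTree ℕ) : ℝ :=
  rpot S (rk (fun v => lev κ v 0 M) κ K) (fun v => K * lev κ v 0 M) t

theorem infix_of_left {x : ℕ} {l r : BinaryTree ℕ} {KL L : List ℕ}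
    (h : inorder (.node x l r) = KL) (hL : L <:+: inorder l) : L <:+: KL := by
  rw [← h]
  exact hL.trans (infix_left (List.infix_refl _))

theorem infix_of_right {x : ℕ} {l r : BinaryTree ℕ} {KL L : List ℕ}
    (h : inorder (.node x l r) = KL) (hL : L <:+: inorder r) : L <:+: KL := by
  rw [← h]
  exact hL.trans (infix_right (List.infix_refl _))

theorem root_move_pot (hK : K = 2 + Real.logb 2 s) {x : ℕ} {M M' : BinaryTree ℕ}
    (h : RootMove x M M') (hM : IsBST M) (hB : Bdd κ s (inorder M)) {t : BinaryTree ℕ}
    (ht : At x 0 t) (hi : inorder t = inorder M) : PP κ K S M' t ≤ PP κ K S M t := by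
  obtain ⟨hM', hi'⟩ := rootMove_eq h hM
  have hbM' : IsBST M' := by rw [IsBST, hi']; exact hM
  have hU := uniq_lev (κ := κ) hM 0
  have hU' := uniq_lev (κ := κ) hbM' 0
  rw [hi'] at hU'
  cases t with
  | nil => simp [At] at ht
  | node a l r =>
    simp only [At] at ht
    subst ht
    have hbt : IsBST (.node x l r) := by rw [IsBST, hi]; exact hM
    obtain ⟨-, -, h1, h2⟩ := bst_node hbt
    have hx : x ∈ inorder M := by rw [← hi]; simp [inorder]
    have left := rpot_le (S := S) (R := rk (fun v => lev κ v 0 M) κ K)
      (R' := rk (fun v => lev κ v 0 M') κ K) (F := fun v => K * lev κ v 0 M)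
      (F' := fun v => K * lev κ v 0 M') (δ := 0) (le_refl _) l (by
        intro v L hv hL
        have hLM := infix_of_left hi hL
        have := compare (κ := κ) hK hU hU' hB hLM (m := 0) hv (by
          obtain ⟨u, hu, hu'⟩ := mn_mem (c := fun v => lev κ v 0 M') (List.ne_nil_of_mem hv)
          have hvx := h1 v (hL.subset hv)
          have hux := h1 u (hL.subset hu)
          obtain ⟨j, hj, j1, j2, j3, j4⟩ := lft_shift (κ := κ) hvx hux (κ x) 0 hM
            (hLM.subset hv) (hLM.subset hu)
          have hjL : j ∈ L := by
            rcases j2 with ⟨j5, j6⟩ | ⟨j5, j6⟩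
            · exact infix_between hLM hM hv hu hj j5 j6
            · exact infix_between hLM hM hu hv hj j5 j6
          have hm := mn_le (c := fun v => lev κ v 0 M') hjL
          have hm0 := mn_le (c := fun v => lev κ v 0 M) hjL
          simp only [hM'] at hu' hm ⊢
          simp only [lev_left hvx, lev_left hux, lev_left j1] at hu' hm ⊢
          refine ⟨j, hjL, ?_, ?_, ?_⟩
          · rw [lev_left j1]; omega
          · omega
          · intro; omega)
        simpa using this)
    have right := rpot_le (S := S) (R := rk (fun v => lev κ v 0 M) κ K)
      (R' := rk (fun v => lev κ v 0 M') κ K) (F := fun v => K * lev κ v 0 M)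
      (F' := fun v => K * lev κ v 0 M') (δ := 0) (le_refl _) r (by
        intro v L hv hL
        have hLM := infix_of_right hi hL
        have := compare (κ := κ) hK hU hU' hB hLM (m := 0) hv (by
          obtain ⟨u, hu, hu'⟩ := mn_mem (c := fun v => lev κ v 0 M') (List.ne_nil_of_mem hv)
          have hvx := h2 v (hL.subset hv)
          have hux := h2 u (hL.subset hu)
          obtain ⟨j, hj, j1, j2, j3, j4⟩ := rgt_shift (κ := κ) hvx hux (κ x) 0 hM
            (hLM.subset hv) (hLM.subset hu)
          have hjL : j ∈ L := by
            rcases j2 with ⟨j5, j6⟩ | ⟨j5, j6⟩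
            · exact infix_between hLM hM hv hu hj j5 j6
            · exact infix_between hLM hM hu hv hj j5 j6
          have hm := mn_le (c := fun v => lev κ v 0 M') hjL
          have hm0 := mn_le (c := fun v => lev κ v 0 M) hjL
          simp only [hM'] at hu' hm ⊢
          simp only [lev_right hvx, lev_right hux, lev_right j1] at hu' hm ⊢
          refine ⟨j, hjL, ?_, ?_, ?_⟩
          · rw [lev_right j1]; omega
          · omega
          · intro; omega)
        simpa using this)
    have root : rk (fun v => lev κ v 0 M') κ K (inorder (.node x l r)) + K * lev κ x 0 M'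
        ≤ rk (fun v => lev κ v 0 M) κ K (inorder (.node x l r)) + K * lev κ x 0 M := by
      rw [hi]
      have := compare (κ := κ) hK hU hU' hB (List.infix_refl _) (m := 0) hx (by
        have e1 : lev κ x 0 M' = mn (fun v => lev κ v 0 M') (inorder M) := by
          apply le_antisymm
          · obtain ⟨u, hu, hu'⟩ := mn_mem (c := fun v => lev κ v 0 M') (List.ne_nil_of_mem hx)
            rw [← hu']
            simp only [hM']
            rw [lev_self]
            exact lev_ge_root u
          · exact mn_le (c := fun v => lev κ v 0 M') hx
        have e2 : mn (fun v => lev κ v 0 M) (inorder M) ≤ lev κ x 0 M :=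
          mn_le (c := fun v => lev κ v 0 M) hx
        refine ⟨x, hx, e1, by omega, ?_⟩
        intro; omega)
      simpa using this
    unfold PP
    simp only [rpot]
    simp only [zero_mul, add_zero] at left right
    split_ifs <;> linarith

theorem rot_pot (hK : K = 2 + Real.logb 2 s) (hK0 : 0 ≤ K) {a b : ℕ} {M M' : BinaryTree ℕ}
    (h : Rot a b M M') (hM : IsBST M) (hB : Bdd κ s (inorder M)) {t : BinaryTree ℕ}
    (hi : inorder t = inorder M) :
    PP κ K S M' t ≤ PP κ K S M t + (2 * K) * (inorder t).length * (if κ a ≠ κ b then 1 else 0 : ℕ) := by
  by_cases hκ : κ a = κ b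
  · have e : (fun v => lev κ v 0 M') = (fun v => lev κ v 0 M) := by
      funext v
      exact lev_rot_inside h hκ hM v 0
    have : PP κ K S M' t = PP κ K S M t := by
      unfold PP
      rw [e]
      have e' : (fun v => K * (lev κ v 0 M' : ℝ)) = (fun v => K * (lev κ v 0 M : ℝ)) := by
        funext v
        rw [lev_rot_inside h hκ hM v 0]
      rw [e']
    rw [this]
    simp [hκ]
  · have hi' := rot_inorder h
    have hbM' : IsBST M' := by rw [IsBST, hi']; exact hM
    have hU := uniq_lev (κ := κ) hM 0
    have hU' := uniq_lev (κ := κ) hbM' 0
    rw [hi'] at hU'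
    obtain ⟨m, hm, hlev⟩ := lev_rot (κ := κ) h hM 0
    have key := rpot_le (S := S) (R := rk (fun v => lev κ v 0 M) κ K)
      (R' := rk (fun v => lev κ v 0 M') κ K) (F := fun v => K * lev κ v 0 M)
      (F' := fun v => K * lev κ v 0 M') (δ := 2 * K) (by linarith) t (by
        intro v L hv hL
        rw [hi] at hL
        have := compare (κ := κ) hK hU hU' hB hL (m := 2) hv (by
          obtain ⟨u, hu, hu'⟩ := mn_mem (c := fun v => lev κ v 0 M') (List.ne_nil_of_mem hv)
          have h1 := hlev v
          have h2 := hlev u
          have h3 : mn (fun v => lev κ v 0 M) L ≤ lev κ u 0 M :=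
            mn_le (c := fun v => lev κ v 0 M) hu
          have h4 : lev κ u 0 M' = mn (fun v => lev κ v 0 M') L := hu'
          refine ⟨u, hu, h4, by omega, ?_⟩
          intro; omega)
        simpa using this)
    unfold PP
    simp only [ne_eq, hκ, not_false_eq_true, if_true]
    push_cast
    linarith

end Pot

end Pool.Agent.SplRM
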